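import Mathlib

/-!
# Fitness recursive trees with a bursting fitness: parameters
-/

set_option autoImplicit false
open Finset

namespace Pool.Agent.R953.FR

/-- lengths (and rates) of the slow blocks -/
def J (k : ℕ) : ℕ := 2 ^ (7 * 3 ^ k)

/-- lengths of the fast blocks -/
def K (k : ℕ) : ℕ := 2 ^ (J (k - 1) / 2)

/-- rates of the fast blocks -/
def H (k : ℕ) : ℕ := 2 ^ (J k)

/-- starts of the slow blocks -/
def a : ℕ → ℕ
  | 0 => 0
  | (k+1) => a k + J k + K k

/-- starts of the fast blocks -/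
def b (k : ℕ) : ℕ := a k + J k

theorem J_pos (k : ℕ) : 0 < J k := by unfold J; positivity
theorem K_pos (k : ℕ) : 0 < K k := by unfold K; positivity
theorem H_pos (k : ℕ) : 0 < H k := by unfold H; positivity

theorem J_succ (k : ℕ) : J (k+1) = (J k)^3 := by
  unfold J
  rw [← pow_mul]
  congr 1
  ring

theorem exp_ge (k : ℕ) : k + 7 ≤ 7 * 3 ^ k := by
  induction k with
  | zero => norm_num
  | succ n ih =>
    rw [pow_succ]
    omega

theorem J_ge (k : ℕ) : 128 * (k+1) ≤ J k := by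
  have h1 : k + 1 ≤ 2 ^ k := Nat.lt_two_pow_self
  calc 128 * (k+1) ≤ 2^7 * 2^k := by
        have : (128:ℕ) = 2^7 := by norm_num
        rw [this]
        exact Nat.mul_le_mul_left _ h1
    _ = 2 ^ (k+7) := by rw [pow_add]; ring
    _ ≤ J k := Nat.pow_le_pow_right (by norm_num) (exp_ge k)

theorem J_ge128 (k : ℕ) : 128 ≤ J k := by
  have := J_ge k
  nlinarith

theorem J_zero : J 0 = 128 := by unfold J; norm_num

theorem J_one : J 1 = 2^21 := by unfold J; norm_num

theorem J_mono {i j : ℕ} (h : i ≤ j) : J i ≤ J j := by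
  unfold J
  exact Nat.pow_le_pow_right (by norm_num) (Nat.mul_le_mul_left _ (Nat.pow_le_pow_right (by norm_num) h))

theorem J_half (k : ℕ) : J k / 2 + J k / 2 = J k := by
  have : 2 ∣ J k := by
    unfold J
    exact dvd_pow_self 2 (by positivity)
  omega

theorem aux_pow (m : ℕ) (hm : 7 ≤ m) : 9 * m ≤ 2 ^ (m-1) := by
  induction m, hm using Nat.le_induction with
  | base => norm_num
  | succ n hn ih =>
    have : n + 1 - 1 = (n - 1) + 1 := by omega
    rw [this, pow_succ]
    omega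

theorem J_pow9 (k : ℕ) : (J k)^9 ≤ 2 ^ (J k / 2) := by
  have hm : 7 ≤ 7 * 3^k := by have := exp_ge k; omega
  have h1 := aux_pow (7*3^k) hm
  have h2 : J k / 2 = 2 ^ (7*3^k - 1) := by
    unfold J
    have : 7 * 3^k = (7*3^k - 1) + 1 := by omega
    conv_lhs => rw [this, pow_succ]
    omega
  rw [h2]
  unfold J
  rw [← pow_mul]
  refine Nat.pow_le_pow_right (by norm_num) ?_
  rw [mul_comm]
  exact h1

theorem J_pow3 (k : ℕ) : (J k)^3 ≤ 2 ^ (J k / 2) :=
  (Nat.pow_le_pow_right (J_pos k) (by norm_num)).trans (J_pow9 k)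

theorem J_succ_le (k : ℕ) : J (k+1) ≤ 2 ^ (J k / 2) := by
  rw [J_succ]; exact J_pow3 k

theorem J_succ_le_H (k : ℕ) : J (k+1) ≤ H k := by
  refine (J_succ_le k).trans ?_
  unfold H
  exact Nat.pow_le_pow_right (by norm_num) (Nat.div_le_self _ _)

theorem J_le_H (k : ℕ) : J k ≤ H k := (J_mono (Nat.le_succ k)).trans (J_succ_le_H k)

theorem H_mono {i j : ℕ} (h : i ≤ j) : H i ≤ H j := by
  unfold H
  exact Nat.pow_le_pow_right (by norm_num) (J_mono h)

theorem K_le_H (k : ℕ) : K k ≤ H k := by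
  unfold K H
  refine Nat.pow_le_pow_right (by norm_num) ?_
  exact (Nat.div_le_self _ _).trans (J_mono (by omega))

theorem a_succ (k : ℕ) : a (k+1) = b k + K k := rfl

theorem a_lt_b (k : ℕ) : a k < b k := by unfold b; have := J_pos k; omega
theorem b_lt_a (k : ℕ) : b k < a (k+1) := by rw [a_succ]; have := K_pos k; omega

theorem a_strictMono : StrictMono a := strictMono_nat_of_lt_succ fun k => (a_lt_b k).trans (b_lt_a k)

theorem b_strictMono : StrictMono b := strictMono_nat_of_lt_succ fun k => (b_lt_a k).trans (a_lt_b (k+1))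

theorem exists_ph (n : ℕ) : ∃ k, n < a (k+1) :=
  ⟨n, (Nat.lt_succ_self n).trans_le a_strictMono.le_apply⟩

/-- block index of a degree -/
noncomputable def ph (n : ℕ) : ℕ := Nat.find (exists_ph n)

theorem lt_a_ph (n : ℕ) : n < a (ph n + 1) := Nat.find_spec (exists_ph n)

theorem a_ph_le (n : ℕ) : a (ph n) ≤ n := by
  rcases Nat.eq_zero_or_pos (ph n) with h | h
  · rw [h]; exact Nat.zero_le _
  · have h2 := Nat.find_min (exists_ph n) (m := ph n - 1) (by unfold ph at h ⊢; omega)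
    have h3 : ph n - 1 + 1 = ph n := by omega
    rw [h3] at h2
    omega

theorem ph_eq {n k : ℕ} (h1 : a k ≤ n) (h2 : n < a (k+1)) : ph n = k := by
  apply le_antisymm
  · by_contra h
    have : a (k+1) ≤ a (ph n) := a_strictMono.monotone (by omega)
    have := a_ph_le n
    omega
  · by_contra h
    have : a (ph n + 1) ≤ a k := a_strictMono.monotone (by omega)
    have := lt_a_ph n
    omega

/-- the fitness function -/
noncomputable def f (n : ℕ) : ℝ := if n < b (ph n) then (J (ph n) : ℝ) else (H (ph n) : ℝ)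

theorem f_slow {n k : ℕ} (h1 : a k ≤ n) (h2 : n < b k) : f n = J k := by
  have h := ph_eq h1 (h2.trans (b_lt_a k))
  unfold f
  rw [h, if_pos h2]

theorem f_fast {n k : ℕ} (h1 : b k ≤ n) (h2 : n < a (k+1)) : f n = H k := by
  have h := ph_eq ((a_lt_b k).le.trans h1) h2
  unfold f
  rw [h, if_neg (by omega)]

theorem f_ge (n : ℕ) : 128 ≤ f n := by
  unfold f
  split_ifs
  · exact_mod_cast J_ge128 _
  · exact_mod_cast (J_ge128 _).trans (J_le_H _)

theorem f_pos (n : ℕ) : 0 < f n := lt_of_lt_of_le (by norm_num) (f_ge n)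

theorem f_le {n j : ℕ} (h : n < b (j+1)) : f n ≤ H j := by
  have h0 := a_ph_le n
  have h1 : ph n ≤ j + 1 := by
    by_contra hc
    have h4 : a (j+1+1) ≤ a (ph n) := a_strictMono.monotone (by omega)
    have h5 := b_lt_a (j+1)
    omega
  rcases Nat.lt_or_ge (ph n) (j+1) with h2 | h2
  · unfold f
    split_ifs
    · exact_mod_cast (J_le_H _).trans (H_mono (by omega))
    · exact_mod_cast (H_mono (by omega))
  · have h3 : ph n = j + 1 := by omega
    unfold f
    rw [h3, if_pos h]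
    exact_mod_cast J_succ_le_H j

/-- products -/
noncomputable def Pr (θ : ℝ) (n : ℕ) : ℝ := ∏ m ∈ range n, (1 + θ / f m)

theorem Pr_zero (θ : ℝ) : Pr θ 0 = 1 := by simp [Pr]

theorem Pr_succ (θ : ℝ) (n : ℕ) : Pr θ (n+1) = Pr θ n * (1 + θ / f n) := by
  simp [Pr, prod_range_succ]

theorem one_le_fac {θ : ℝ} (hθ : 0 ≤ θ) (m : ℕ) : 1 ≤ 1 + θ / f m := by
  have := div_nonneg hθ (f_pos m).le
  linarith

theorem Pr_pos {θ : ℝ} (hθ : 0 ≤ θ) (n : ℕ) : 0 < Pr θ n :=
  prod_pos fun m _ => lt_of_lt_of_le one_pos (one_le_fac hθ m)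

theorem Pr_mono {θ : ℝ} (hθ : 0 ≤ θ) : Monotone (Pr θ) := by
  refine monotone_nat_of_le_succ fun n => ?_
  rw [Pr_succ]
  exact le_mul_of_one_le_right (Pr_pos hθ n).le (one_le_fac hθ n)

theorem one_le_Pr {θ : ℝ} (hθ : 0 ≤ θ) (n : ℕ) : 1 ≤ Pr θ n := by
  rw [← Pr_zero θ]
  exact Pr_mono hθ (Nat.zero_le _)

/-- cross ratio inequality -/
theorem Pr_cross {θ θ' : ℝ} (hθ : 0 ≤ θ) (hθ' : θ ≤ θ') {n N : ℕ} (h : n ≤ N) :
    Pr θ N * Pr θ' n ≤ Pr θ n * Pr θ' N := by
  induction N, h using Nat.le_induction with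
  | base => exact le_rfl
  | succ N hN ih =>
    rw [Pr_succ, Pr_succ]
    have h1 : 1 + θ / f N ≤ 1 + θ' / f N := by
      have := div_le_div_of_nonneg_right hθ' (f_pos N).le
      linarith
    have h0 := one_le_fac hθ N
    have p1 := Pr_pos hθ n
    have p2 := Pr_pos (hθ.trans hθ') N
    calc Pr θ N * (1 + θ / f N) * Pr θ' n = (Pr θ N * Pr θ' n) * (1 + θ / f N) := by ring
      _ ≤ (Pr θ n * Pr θ' N) * (1 + θ / f N) := mul_le_mul_of_nonneg_right ih (by linarith)
      _ ≤ (Pr θ n * Pr θ' N) * (1 + θ' / f N) := mul_le_mul_of_nonneg_left h1 (by positivity)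
      _ = Pr θ n * (Pr θ' N * (1 + θ' / f N)) := by ring

theorem Pr_b (θ : ℝ) (k : ℕ) : Pr θ (b k) = Pr θ (a k) * (1 + θ / J k) ^ (J k) := by
  unfold Pr b
  rw [prod_range_add]
  congr 1
  rw [prod_congr rfl (g := fun _ => (1 + θ / (J k : ℝ)))]
  · rw [prod_const, card_range]
  · intro i hi
    rw [f_slow (k := k) (by omega) (by unfold b; rw [mem_range] at hi; omega)]

theorem sum_inv_le (k : ℕ) : ∑ m ∈ range (a k), 1 / f m ≤ 2 * k := by
  induction k with
  | zero => simp [a]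
  | succ k ih =>
    show ∑ m ∈ range (a k + J k + K k), 1 / f m ≤ _
    rw [sum_range_add, sum_range_add]
    have h1 : ∑ x ∈ range (J k), 1 / f (a k + x) = 1 := by
      rw [sum_congr rfl (g := fun _ => (1 / (J k : ℝ)))]
      · rw [sum_const, card_range, nsmul_eq_mul]
        have : (J k : ℝ) ≠ 0 := by exact_mod_cast (J_pos k).ne'
        field_simp
      · intro i hi
        rw [f_slow (k := k) (by omega) (by unfold b; rw [mem_range] at hi; omega)]
    have h2 : ∑ x ∈ range (K k), 1 / f (a k + J k + x) ≤ 1 := by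
      rw [sum_congr rfl (g := fun _ => (1 / (H k : ℝ)))]
      · rw [sum_const, card_range, nsmul_eq_mul]
        have h3 : (0:ℝ) < H k := by exact_mod_cast (H_pos k)
        rw [mul_one_div, div_le_one h3]
        exact_mod_cast K_le_H k
      · intro i hi
        rw [f_fast (k := k) (by unfold b; omega) (by rw [a_succ]; unfold b; rw [mem_range] at hi; omega)]
    rw [h1]
    push_cast
    linarith

theorem Pr_le_exp {θ : ℝ} (hθ : 0 ≤ θ) (n : ℕ) : Pr θ n ≤ Real.exp (θ * ∑ m ∈ range n, 1 / f m) := by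
  unfold Pr
  rw [mul_sum, Real.exp_sum]
  refine prod_le_prod (fun m _ => le_trans zero_le_one (one_le_fac hθ m)) fun m _ => ?_
  have := Real.add_one_le_exp (θ / f m)
  rw [mul_one_div]
  linarith

theorem Pr_a_le {θ : ℝ} (hθ : 0 ≤ θ) (k : ℕ) : Pr θ (a k) ≤ Real.exp (θ * (2 * k)) := by
  refine (Pr_le_exp hθ _).trans (Real.exp_le_exp.mpr ?_)
  exact mul_le_mul_of_nonneg_left (sum_inv_le k) hθ

end Pool.Agent.R953.FR
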