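import Pool.Agent.R953.FR.P9

/-!
# Fitness recursive trees: existence of the process and the value of `α`
-/

set_option autoImplicit false
open Finset MeasureTheory Filter Topology ProbabilityTheory
open scoped ENNReal NNReal

namespace Pool.Agent.R953.FR

/-- the list of the first `t` values of `u`, most recent first -/
def hu (t : ℕ) (u : ℕ → ℕ) : List ℕ := hist (fun s (y : ℕ → ℕ) => y s) t u

theorem hu_length (t : ℕ) (u : ℕ → ℕ) : (hu t u).length = t := hist_length _ t u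

theorem hu_congr {t : ℕ} {u u' : ℕ → ℕ} (h : ∀ s < t, u s = u' s) : hu t u = hu t u' := by
  induction t with
  | zero => rfl
  | succ t ih =>
    show u t :: hu t u = u' t :: hu t u'
    rw [h t (by omega), ih fun s hs => h s (by omega)]

/-- pick measure after a history -/
noncomputable def km (h : List ℕ) : Measure ℕ :=
  ∑ v ∈ range (h.length + 1), ENNReal.ofReal (p h v) • Measure.dirac v

theorem km_univ (h : List ℕ) : km h Set.univ = 1 := by
  unfold km
  rw [Measure.finsetSum_apply]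
  simp only [Measure.smul_apply, measure_univ, smul_eq_mul, mul_one]
  rw [← ENNReal.ofReal_sum_of_nonneg fun v _ => p_nonneg h v, sum_p, ENNReal.ofReal_one]

theorem km_singleton (h : List ℕ) (v : ℕ) (hv : v ≤ h.length) : km h {v} = ENNReal.ofReal (p h v) := by
  unfold km
  rw [Measure.finsetSum_apply, sum_eq_single v]
  · simp
  · intro b _ hb
    simp [hb]
  · intro hh
    exact absurd (mem_range.mpr (by omega)) hh

/-- the values `1, …, n` of a trajectory -/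
def tl (n : ℕ) (x : Π _ : Iic n, ℕ) : ℕ → ℕ :=
  fun i => if h : i + 1 ≤ n then x ⟨i + 1, mem_Iic.mpr h⟩ else 0

noncomputable def ker (n : ℕ) : Kernel (Π _ : Iic n, ℕ) ℕ :=
  Kernel.ofFunOfCountable fun x => km (hu n (tl n x))

theorem ker_apply (n : ℕ) (x : Π _ : Iic n, ℕ) : ker n x = km (hu n (tl n x)) := rfl

theorem exists_picks : ∃ Q : Measure (ℕ → ℕ), IsProbabilityMeasure Q ∧
    ∀ (t : ℕ) (u : ℕ → ℕ) (j : ℕ), j ≤ t →
      Q {y | (∀ s < t, y (s+1) = u s) ∧ y (t+1) = j} =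
        Q {y | ∀ s < t, y (s+1) = u s} * ENNReal.ofReal (p (hu t u) j) := by
  have hM : ∀ n, IsMarkovKernel (ker n) := fun n => ⟨fun x => ⟨by
    rw [ker_apply]
    exact km_univ _⟩⟩
  set P : Measure (ℕ → ℕ) :=
    Kernel.trajMeasure (X := fun _ => ℕ) (Measure.dirac (0 : ℕ)) ker with hP
  have hPprob : IsProbabilityMeasure P := by rw [hP]; infer_instance
  have hmeasr : ∀ n : ℕ, Measurable (fun x : ℕ → ℕ =>
      ((Preorder.frestrictLe n x : Π _ : Iic n, ℕ), x (n + 1))) := by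
    intro n
    fun_prop
  have hkey : ∀ (n : ℕ) (s : Set ((Π _ : Iic n, ℕ) × ℕ)),
      P {x : ℕ → ℕ | ((Preorder.frestrictLe n x : Π _ : Iic n, ℕ), x (n + 1)) ∈ s} =
      ∫⁻ x', ker n x' (Prod.mk x' ⁻¹' s) ∂(P.map (Preorder.frestrictLe n)) := by
    intro n s
    have hs : MeasurableSet s := (Set.to_countable s).measurableSet
    rw [← Measure.compProd_apply hs, hP,
      Kernel.map_frestrictLe_trajMeasure_compProd_eq_map_trajMeasure,
      Measure.map_apply (hmeasr n) hs]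
    rfl
  refine ⟨P, hPprob, fun n h y hy => ?_⟩
  set S : Set (Π _ : Iic n, ℕ) := {x' | ∀ i < n, tl n x' i = h i} with hS
  have hSm : MeasurableSet S := (Set.to_countable S).measurableSet
  have hiff : ∀ ω : ℕ → ℕ, (∀ i < n, ω (i + 1) = h i) ↔
      (Preorder.frestrictLe n ω : Π _ : Iic n, ℕ) ∈ S := by
    intro ω
    rw [hS, Set.mem_ofPred_eq]
    refine forall₂_congr fun i hi => ?_
    unfold tl
    rw [dif_pos (by omega)]
    rfl
  have e1 : {ω : ℕ → ℕ | (∀ i < n, ω (i + 1) = h i) ∧ ω (n + 1) = y} =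
      {x : ℕ → ℕ | ((Preorder.frestrictLe n x : Π _ : Iic n, ℕ), x (n + 1)) ∈ S ×ˢ {y}} := by
    ext ω
    simp only [Set.mem_ofPred_eq, Set.mem_prod, Set.mem_singleton_iff]
    rw [hiff]
  have e2 : {ω : ℕ → ℕ | ∀ i < n, ω (i + 1) = h i} = Preorder.frestrictLe n ⁻¹' S := by
    ext ω
    exact hiff ω
  rw [e1, e2, hkey]
  have e3 : ∀ x' : Π _ : Iic n, ℕ, ker n x' (Prod.mk x' ⁻¹' (S ×ˢ {y})) =
      S.indicator (fun _ => ENNReal.ofReal (p (hu n h) y)) x' := by
    intro x'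
    by_cases hx : x' ∈ S
    · rw [Set.indicator_of_mem hx, ker_apply]
      have : Prod.mk x' ⁻¹' (S ×ˢ {y}) = {y} := by
        ext w
        simp [hx]
      rw [this, hu_congr (u := tl n x') (u' := h) hx]
      exact km_singleton _ y (by rw [hu_length]; exact hy)
    · rw [Set.indicator_of_notMem hx]
      have : Prod.mk x' ⁻¹' (S ×ˢ {y}) = ∅ := by
        ext w
        simp [hx]
      rw [this, measure_empty]
  rw [lintegral_congr e3, lintegral_indicator hSm, setLIntegral_const,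
    Measure.map_apply (by fun_prop) hSm, mul_comm]

theorem hist_eq_hu (t : ℕ) :
    hist (fun s (ω : (ℕ → ℕ) × (ℕ → ℝ≥0)) => ω.1 (s+1)) t = fun ω => hu t (fun s => ω.1 (s+1)) := by
  induction t with
  | zero => rfl
  | succ t ih =>
    funext ω
    show ω.1 (t+1) :: hist _ t ω = ω.1 (t+1) :: hu t _
    rw [ih]

/-- the process exists for every weight law -/
theorem exists_tree (μ : Measure ℝ≥0) [IsProbabilityMeasure μ] :
    ∃ (P : Measure ((ℕ → ℕ) × (ℕ → ℝ≥0))) (W : ℕ → ((ℕ → ℕ) × (ℕ → ℝ≥0)) → ℝ≥0)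
      (c : ℕ → ((ℕ → ℕ) × (ℕ → ℝ≥0)) → ℕ), IsProbabilityMeasure P ∧ IsTree μ fF 1 P W c := by
  obtain ⟨Q, hQ, hpick⟩ := exists_picks
  set ν : Measure (ℕ → ℝ≥0) := Measure.infinitePi (fun _ : ℕ => μ) with hν
  have hνp : IsProbabilityMeasure ν := by rw [hν]; infer_instance
  set c : ℕ → ((ℕ → ℕ) × (ℕ → ℝ≥0)) → ℕ := fun t ω => ω.1 (t+1) with hc
  set W : ℕ → ((ℕ → ℕ) × (ℕ → ℝ≥0)) → ℝ≥0 := fun v ω => ω.2 v with hW
  have hcm : ∀ t, Measurable (c t) := fun t => by rw [hc]; fun_prop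
  refine ⟨Q.prod ν, W, c, inferInstance, ⟨fun v => by rw [hW]; fun_prop, hcm, ?_, ?_, ?_⟩⟩
  · have : W 0 = (fun x : ℕ → ℝ≥0 => x 0) ∘ Prod.snd := rfl
    rw [this, ← Measure.map_map (by fun_prop) measurable_snd, Measure.map_snd_prod, measure_univ, one_smul,
      hν, Measure.infinitePi_map_eval]
  · intro t u B hB j hj
    have hj' : j ≤ t := by omega
    set S1 : Set (ℕ → ℕ) := {y | ∀ s < t, y (s+1) = u s} with hS1
    set S2 : Set (ℕ → ℝ≥0) := {x | (fun i : Fin (1 * t + 1) => x i) ∈ B} with hS2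
    have hS2m : MeasurableSet S2 := by
      have : Measurable (fun x : ℕ → ℝ≥0 => fun i : Fin (1 * t + 1) => x i) := by fun_prop
      exact this hB
    have e1 : {ω : (ℕ → ℕ) × (ℕ → ℝ≥0) | ((∀ s < t, c s ω = u s) ∧ (fun i : Fin (1 * t + 1) => W i ω) ∈ B) ∧ c t ω = j} =
        {y | (∀ s < t, y (s+1) = u s) ∧ y (t+1) = j} ×ˢ S2 := by
      ext ω
      simp only [Set.mem_ofPred_eq, Set.mem_prod, hc, hW, hS2]
      tauto
    have e2 : {ω : (ℕ → ℕ) × (ℕ → ℝ≥0) | (∀ s < t, c s ω = u s) ∧ (fun i : Fin (1 * t + 1) => W i ω) ∈ B} =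
        S1 ×ˢ S2 := by
      ext ω
      simp only [Set.mem_ofPred_eq, Set.mem_prod, hc, hW, hS1, hS2]
    have hS1m : MeasurableSet S1 := meas_cyl (c := fun s (y : ℕ → ℕ) => y (s+1)) (fun s => by fun_prop) t u
    rw [e1, e2, Measure.prod_prod, hpick t u j hj']
    have e3 : ∫⁻ ω in S1 ×ˢ S2, ((fF (picks c j t ω) (W j ω) / totalFit fF 1 W c t ω : ℝ≥0) : ℝ≥0∞) ∂(Q.prod ν) =
        ∫⁻ _ in S1 ×ˢ S2, ENNReal.ofReal (p (hu t u) j) ∂(Q.prod ν) := by
      refine setLIntegral_congr_fun (hS1m.prod hS2m) fun ω hω => ?_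
      have hω1 : ∀ s < t, ω.1 (s+1) = u s := hω.1
      have hh : hist c t ω = hu t u := by
        have h1 : hist c t = fun ω => hu t (fun s => ω.1 (s+1)) := hist_eq_hu t
        rw [h1]
        exact hu_congr hω1
      show ((fF (picks c j t ω) (W j ω) / totalFit fF 1 W c t ω : ℝ≥0) : ℝ≥0∞) = _
      rw [totalFit_eq, hh, ← hist_count, hh]
      unfold fF p
      rw [← Real.toNNReal_div (f_pos _).le]
      rfl
    rw [e3, setLIntegral_const, Measure.prod_prod]
    ring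
  · intro t u B hB C hC
    set S1 : Set (ℕ → ℕ) := {y | ∀ s ≤ t, y (s+1) = u s} with hS1
    set G1 : (ℕ → ℝ≥0) → (Fin (1 * t + 1) → ℝ≥0) := fun x i => x i with hG1
    set G2 : (ℕ → ℝ≥0) → (Fin 1 → ℝ≥0) := fun x i => x (1 * t + 1 + i) with hG2
    have e1 : {ω : (ℕ → ℕ) × (ℕ → ℝ≥0) | ((∀ s ≤ t, c s ω = u s) ∧ (fun i : Fin (1 * t + 1) => W i ω) ∈ B) ∧
        (fun i : Fin 1 => W (1 * t + 1 + i) ω) ∈ C} = S1 ×ˢ (G1 ⁻¹' B ∩ G2 ⁻¹' C) := by
      ext ω
      simp only [Set.mem_ofPred_eq, Set.mem_prod, hc, hW, hS1, Set.mem_inter_iff, Set.mem_preimage, hG1, hG2]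
      tauto
    have e2 : {ω : (ℕ → ℕ) × (ℕ → ℝ≥0) | (∀ s ≤ t, c s ω = u s) ∧ (fun i : Fin (1 * t + 1) => W i ω) ∈ B} =
        S1 ×ˢ (G1 ⁻¹' B) := by
      ext ω
      simp only [Set.mem_ofPred_eq, Set.mem_prod, hc, hW, hS1, Set.mem_preimage, hG1]
    rw [e1, e2, Measure.prod_prod, Measure.prod_prod]
    have hind : iIndepFun (fun (i : ℕ) (x : ℕ → ℝ≥0) => x i) ν := by
      rw [hν]
      exact iIndepFun_infinitePi (X := fun _ x => x) (by fun_prop)
    have hdis : Disjoint (range (1 * t + 1)) (Ico (1 * t + 1) (1 * t + 2)) := by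
      rw [Finset.disjoint_left]
      intro x hx hx2
      rw [mem_range] at hx
      rw [mem_Ico] at hx2
      omega
    have h2 := hind.indepFun_finset (range (1 * t + 1)) (Ico (1 * t + 1) (1 * t + 2)) hdis (by fun_prop)
    have h3 : IndepFun G1 G2 ν := by
      have hm1 : Measurable (fun (z : (range (1 * t + 1) : Finset ℕ) → ℝ≥0) (i : Fin (1 * t + 1)) =>
          z ⟨i, mem_range.mpr i.2⟩) := by fun_prop
      have hm2 : Measurable (fun (z : (Ico (1 * t + 1) (1 * t + 2) : Finset ℕ) → ℝ≥0) (i : Fin 1) =>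
          z ⟨1 * t + 1 + i, mem_Ico.mpr (by omega)⟩) := by fun_prop
      exact h2.comp hm1 hm2
    rw [h3.measure_inter_preimage_eq_mul B C hB hC]
    have h4 : ν (G2 ⁻¹' C) = Measure.pi (fun _ : Fin 1 => μ) C := by
      have hG2m : Measurable G2 := by rw [hG2]; fun_prop
      rw [← Measure.map_apply hG2m hC]
      congr 1
      have h5 := Measure.map_infinitePi_infinitePi_of_inj (P := fun _ : ℕ => μ)
        (f := fun i : Fin 1 => 1 * t + 1 + (i : ℕ)) (fun i j _ => Subsingleton.elim i j)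
      rw [hν]
      refine h5.trans ?_
      rw [Measure.infinitePi_eq_pi]
    rw [h4, mul_assoc]

/-! ### the value of `α` -/

theorem J_sq (k : ℕ) (hk : 2 ≤ k) : k^2 ≤ J (k-1) / 2 := by
  have h1 := J_ge (k-2)
  have hJk : J (k-1) = (J (k-2))^3 := by
    have : k - 1 = (k-2) + 1 := by omega
    rw [this, J_succ]
  have h2 : k ≤ J (k-2) := by omega
  have h3 : 2 ≤ J (k-2) := by have := J_ge128 (k-2); omega
  have h4 : 2 * k^2 ≤ J (k-1) := by
    rw [hJk]
    calc 2 * k^2 ≤ J (k-2) * (J (k-2))^2 := Nat.mul_le_mul h3 (Nat.pow_le_pow_left h2 2)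
      _ = _ := by ring
  omega

theorem fac_eq (lam : ℝ≥0) (j : ℕ) (w : ℝ≥0) :
    ((fF j w / (lam + fF j w) : ℝ≥0) : ℝ≥0∞) = ENNReal.ofReal (1 / (1 + lam / f j)) := by
  have hf := f_pos j
  have e : (fF j w / (lam + fF j w) : ℝ≥0) = (1 / (1 + (lam:ℝ) / f j)).toNNReal := by
    apply NNReal.coe_injective
    rw [Real.coe_toNNReal _ (by positivity)]
    unfold fF
    push_cast
    rw [Real.coe_toNNReal _ hf.le]
    field_simp
    ring
  rw [e]
  rfl

theorem mfun_eq (μ : Measure ℝ≥0) [IsProbabilityMeasure μ] (lam : ℝ≥0) :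
    mfun μ fF 1 lam = ∑' n : ℕ, ENNReal.ofReal (1 / Pr lam (n+1)) := by
  unfold mfun
  rw [Nat.cast_one, one_mul]
  refine tsum_congr fun n => ?_
  have e : ∀ w : ℝ≥0, ∏ j ∈ range (n+1), ((fF j w / (lam + fF j w) : ℝ≥0) : ℝ≥0∞) = ENNReal.ofReal (1 / Pr lam (n+1)) := by
    intro w
    rw [prod_congr rfl fun j _ => fac_eq lam j w, ← ENNReal.ofReal_prod_of_nonneg]
    · congr 1
      unfold Pr
      rw [one_div, ← prod_inv_distrib]
      exact prod_congr rfl fun j _ => one_div _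
    · intro j _
      have := f_pos j
      positivity
  rw [lintegral_congr e, lintegral_const, measure_univ, mul_one]

theorem mfun_top (μ : Measure ℝ≥0) [IsProbabilityMeasure μ] (lam : ℝ≥0) : mfun μ fF 1 lam = ⊤ := by
  rw [mfun_eq]
  have hl0 : (0:ℝ) ≤ lam := lam.2
  have key : ∀ k : ℕ, ENNReal.ofReal (K k / Real.exp (lam * (2 * ((k+1 : ℕ) : ℝ)))) ≤
      ∑' n : ℕ, ENNReal.ofReal (1 / Pr lam (n+1)) := by
    intro k
    refine le_trans ?_ (ENNReal.sum_le_tsum (Ico (b k) (a (k+1))))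
    have h1 : ∀ n ∈ Ico (b k) (a (k+1)), ENNReal.ofReal (1 / Real.exp (lam * (2 * ((k+1 : ℕ) : ℝ)))) ≤
        ENNReal.ofReal (1 / Pr lam (n+1)) := by
      intro n hn
      rw [mem_Ico] at hn
      refine ENNReal.ofReal_le_ofReal ?_
      refine one_div_le_one_div_of_le (Pr_pos hl0 _) ?_
      exact (Pr_mono hl0 (show n + 1 ≤ a (k+1) by omega)).trans (Pr_a_le hl0 (k+1))
    refine le_trans (le_of_eq ?_) (sum_le_sum h1)
    rw [sum_const, Nat.card_Ico]
    have : a (k+1) - b k = K k := by rw [a_succ]; omega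
    rw [this, nsmul_eq_mul, ← ENNReal.ofReal_natCast, ← ENNReal.ofReal_mul (Nat.cast_nonneg _)]
    congr 1
    ring
  obtain ⟨m, hm⟩ := pow_unbounded_of_one_lt (Real.exp (2 * lam)) (one_lt_two : (1:ℝ) < 2)
  by_contra hne
  obtain ⟨M, hM⟩ := ENNReal.exists_nat_gt hne
  set k := m + 2 + M with hk
  have h1 := key k
  have h2 : (M : ℝ) ≤ K k / Real.exp (lam * (2 * ((k+1 : ℕ) : ℝ))) := by
    rw [le_div_iff₀ (Real.exp_pos _)]
    have h3 : Real.exp (lam * (2 * ((k+1 : ℕ) : ℝ))) ≤ 2^(m * (k+1)) := by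
      have e : (lam:ℝ) * (2 * ((k+1 : ℕ) : ℝ)) = ((k+1 : ℕ) : ℝ) * (2 * lam) := by ring
      rw [e, Real.exp_nat_mul, pow_mul]
      exact pow_le_pow_left₀ (Real.exp_pos _).le hm.le _
    have h4 : (M : ℝ) ≤ 2^k := by
      have : M ≤ 2^k := (Nat.lt_two_pow_self (n := M)).le.trans (Nat.pow_le_pow_right (by norm_num) (by omega))
      exact_mod_cast this
    calc (M : ℝ) * Real.exp (lam * (2 * ((k+1 : ℕ) : ℝ))) ≤ 2^k * 2^(m * (k+1)) :=
          mul_le_mul h4 h3 (Real.exp_pos _).le (by positivity)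
      _ = 2^(k + m * (k+1)) := (pow_add _ _ _).symm
      _ ≤ 2^(J (k-1) / 2) := by
          refine pow_le_pow_right₀ (by norm_num) ?_
          refine le_trans ?_ (J_sq k (by omega))
          nlinarith
      _ = K k := by unfold K; push_cast; rfl
  have h5 : (M : ℝ≥0∞) ≤ ∑' n : ℕ, ENNReal.ofReal (1 / Pr lam (n+1)) := by
    refine le_trans ?_ h1
    rw [← ENNReal.ofReal_natCast]
    exact ENNReal.ofReal_le_ofReal h2
  exact absurd hM (not_lt.mpr h5)

theorem alpha_top (μ : Measure ℝ≥0) [IsProbabilityMeasure μ] : alpha μ fF 1 = ⊤ := by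
  unfold alpha
  have : {lam : ℝ≥0 | 0 < lam ∧ mfun μ fF 1 lam < ⊤} = ∅ := by
    ext lam
    simp [mfun_top μ lam]
  rw [this, Set.image_empty, sInf_empty]

end Pool.Agent.R953.FR
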