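import Pool.Agent.R953.FR.P1

/-!
# Fitness recursive trees with a bursting fitness: the weights
-/

set_option autoImplicit false
open Finset

namespace Pool.Agent.R953.FR

theorem exp_sub_sq_le {y : ℝ} (hy : 0 ≤ y) : Real.exp (y - y^2) ≤ 1 + y := by
  have h1 : 1 - y + y^2 ≤ Real.exp (-(y - y^2)) := by
    have := Real.add_one_le_exp (-(y - y^2))
    linarith
  have h2 : 0 < Real.exp (y - y^2) := Real.exp_pos _
  rw [Real.exp_neg] at h1
  have h3 : (1 - y + y^2) * Real.exp (y - y^2) ≤ 1 := by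
    calc (1 - y + y^2) * Real.exp (y - y^2) ≤ (Real.exp (y - y^2))⁻¹ * Real.exp (y - y^2) :=
          mul_le_mul_of_nonneg_right h1 h2.le
      _ = 1 := inv_mul_cancel₀ h2.ne'
  have h4 : 1 ≤ (1 + y) * (1 - y + y^2) := by nlinarith [pow_nonneg hy 3]
  have h5 : 0 < 1 - y + y^2 := by nlinarith [sq_nonneg (y - 1/2)]
  by_contra hc
  push Not at hc
  have : (1 + y) * (1 - y + y^2) < Real.exp (y - y^2) * (1 - y + y^2) := mul_lt_mul_of_pos_right hc h5
  linarith

theorem inv_one_sub_le {x : ℝ} (h0 : 0 ≤ x) (h1 : x ≤ 1/2) : (1 - x)⁻¹ ≤ Real.exp (x + 2 * x^2) := by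
  have h2 : 1 + x + 2 * x^2 ≤ Real.exp (x + 2 * x^2) := by
    have := Real.add_one_le_exp (x + 2 * x^2)
    linarith
  refine le_trans ?_ h2
  rw [inv_le_comm₀ (by linarith) (by positivity)]
  rw [inv_le_iff_one_le_mul₀ (by positivity)]
  nlinarith [pow_nonneg h0 2, mul_nonneg (pow_nonneg h0 2) (by linarith : 0 ≤ 1 - 2 * x)]

/-- the exponent of phase `k` -/
noncomputable def q (k : ℕ) : ℝ := J (k-2)

noncomputable def th (k : ℕ) : ℝ := q k + 2^15 / q k

noncomputable def g (k n : ℕ) : ℝ := (if n = 0 then 1 + 128 / q k else Pr (q k) n) / Pr (q k) (b (k-1))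

noncomputable def rho (k : ℕ) : ℝ := 1 - th k / J k

noncomputable def EE (k : ℕ) : ℝ := Real.exp (2^17 / J (k-1))

def N (k : ℕ) : ℕ := 2 ^ (3 * k * J (k-2))

noncomputable def tau (k : ℕ) : ℝ := 2 * K k * H (k-2) / H k

noncomputable def RR (k : ℕ) : ℝ := 16 * (1/2) ^ (J (k-1) / 2)

theorem q_ge {k : ℕ} (hk : 3 ≤ k) : 2^21 ≤ q k := by
  unfold q
  have : J 1 ≤ J (k-2) := J_mono (by omega)
  rw [J_one] at this
  exact_mod_cast this

theorem q_pos {k : ℕ} : 0 < q k := by unfold q; exact_mod_cast J_pos _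

theorem Prq_pos (k n : ℕ) : 0 < Pr (q k) n := Pr_pos q_pos.le n

theorem th_pos {k : ℕ} : 0 < th k := by
  unfold th
  have := @q_pos k
  positivity

theorem th_le {k : ℕ} (hk : 3 ≤ k) : th k ≤ q k + 1 := by
  unfold th
  have h := q_ge hk
  have : 2^15 / q k ≤ 1 := by
    rw [div_le_one q_pos]
    linarith
  linarith

theorem b_zero : b 0 = 128 := by unfold b a; rw [J_zero]

theorem exists_block {n : ℕ} (hn : b 0 ≤ n) : ∃ j, b j ≤ n ∧ n < b (j+1) := by
  have hex : ∃ m, n < b m := ⟨n+1, (Nat.lt_succ_self n).trans_le b_strictMono.le_apply⟩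
  classical
  have h1 := Nat.find_spec hex
  have h0 : Nat.find hex ≠ 0 := by
    intro h
    rw [h] at h1
    omega
  obtain ⟨j, hj⟩ := Nat.exists_eq_succ_of_ne_zero h0
  refine ⟨j, ?_, ?_⟩
  · have := Nat.find_min hex (m := j) (by omega)
    omega
  · rw [hj] at h1
    exact h1

theorem two_pow_le {θ : ℝ} {j : ℕ} (h : (J j : ℝ) ≤ θ) : (2:ℝ)^(J j) ≤ (1 + θ / J j)^(J j) := by
  have hJ : (0:ℝ) < J j := by exact_mod_cast J_pos j
  refine pow_le_pow_left₀ (by norm_num) ?_ _
  have : 1 ≤ θ / J j := (one_le_div hJ).mpr h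
  linarith

/-- the key inequality for the weights -/
theorem f_mul_le {k n : ℕ} (hk : 3 ≤ k) (hn : 1 ≤ n) (hn2 : n < b (k-1)) :
    f n * (1 + 128 / q k) ≤ 2^15 / q k * Pr (q k) n := by
  have hq := q_ge hk
  have hq0 := @q_pos k
  have h2 : 1 + 128 / q k ≤ 2 := by
    have : 128 / q k ≤ 1 := by
      rw [div_le_one hq0]
      linarith
    linarith
  have hf := f_pos n
  refine (mul_le_mul_of_nonneg_left h2 hf.le).trans ?_
  rcases Nat.lt_or_ge n (b 0) with h | h
  · rw [f_slow (k := 0) (Nat.zero_le _) h, J_zero]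
    have h3 : Pr (q k) 1 ≤ Pr (q k) n := Pr_mono hq0.le hn
    rw [Pr_succ, Pr_zero, f_slow (k := 0) (Nat.zero_le _) (by rw [b_zero]; norm_num), J_zero] at h3
    have h4 : q k / 128 ≤ Pr (q k) n := by push_cast at h3; linarith
    calc ((128:ℕ):ℝ) * 2 = 2^15 / q k * (q k / 128) := by
          push_cast
          field_simp
          norm_num
      _ ≤ _ := mul_le_mul_of_nonneg_left h4 (by positivity)
  · obtain ⟨j, hj1, hj2⟩ := exists_block h
    have hjk : j < k - 1 := b_strictMono.lt_iff_lt.mp (lt_of_le_of_lt hj1 hn2)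
    have hfn := f_le hj2
    have hP : Pr (q k) (b j) ≤ Pr (q k) n := Pr_mono hq0.le hj1
    have hy : (2:ℝ)^14 ≤ q k / 128 := by
      rw [le_div_iff₀ (by norm_num)]
      linarith
    have hb0 : (q k / 128)^128 ≤ Pr (q k) (b 0) := by
      rw [Pr_b, J_zero]
      have : Pr (q k) (a 0) = 1 := Pr_zero _
      rw [this, one_mul]
      refine pow_le_pow_left₀ (by positivity) ?_ _
      push_cast
      linarith
    have hbig : (2:ℝ)^200 ≤ 2^15 / q k * Pr (q k) (b 0) := by
      calc (2:ℝ)^200 ≤ 2^8 * (2^14)^127 := by norm_num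
        _ ≤ 2^8 * (q k / 128)^127 := by
            refine mul_le_mul_of_nonneg_left ?_ (by norm_num)
            exact pow_le_pow_left₀ (by norm_num) hy _
        _ = 2^15 / q k * (q k / 128)^128 := by
            rw [pow_succ (q k / 128) 127]
            field_simp
            norm_num
        _ ≤ _ := mul_le_mul_of_nonneg_left hb0 (by positivity)
    rcases Nat.eq_zero_or_pos j with h0 | h0
    · subst h0
      calc f n * 2 ≤ H 0 * 2 := by linarith
        _ = 2^129 := by unfold H; rw [J_zero]; push_cast; norm_num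
        _ ≤ 2^200 := by norm_num
        _ ≤ 2^15 / q k * Pr (q k) (b 0) := hbig
        _ ≤ _ := mul_le_mul_of_nonneg_left hP (by positivity)
    · have h5 : Pr (q k) (b 0) * 2^(J j) ≤ Pr (q k) (b j) := by
        rw [Pr_b (q k) j]
        refine mul_le_mul ?_ (two_pow_le ?_) (by positivity) (Prq_pos _ _).le
        · refine Pr_mono hq0.le ?_
          exact (b_lt_a 0).le.trans (a_strictMono.monotone (by omega))
        · unfold q
          exact_mod_cast J_mono (by omega)
      calc f n * 2 ≤ H j * 2 := by linarith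
        _ = 2 * 2^(J j) := by unfold H; push_cast; ring
        _ ≤ 2^200 * 2^(J j) := mul_le_mul_of_nonneg_right (by norm_num) (by positivity)
        _ ≤ 2^15 / q k * Pr (q k) (b 0) * 2^(J j) := mul_le_mul_of_nonneg_right hbig (by positivity)
        _ = 2^15 / q k * (Pr (q k) (b 0) * 2^(J j)) := by ring
        _ ≤ 2^15 / q k * Pr (q k) n := mul_le_mul_of_nonneg_left (h5.trans hP) (by positivity)

theorem g_pos (k n : ℕ) : 0 < g k n := by
  unfold g
  have h1 := Prq_pos k (b (k-1))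
  have h2 := Prq_pos k n
  have h3 := @q_pos k
  split_ifs
  · positivity
  · positivity

theorem f_zero : f 0 = 128 := by
  rw [f_slow (n := 0) (k := 0) (Nat.le_refl 0) (by rw [b_zero]; norm_num), J_zero]; norm_num

theorem Pr_one_ge {k n : ℕ} (hn : 1 ≤ n) : 1 + q k / 128 ≤ Pr (q k) n := by
  have h3 : Pr (q k) 1 ≤ Pr (q k) n := Pr_mono (@q_pos k).le hn
  rw [Pr_succ, Pr_zero, f_zero] at h3
  linarith

theorem g_zero_le {k : ℕ} (hk : 3 ≤ k) (n : ℕ) : g k 0 ≤ g k n := by
  unfold g
  rw [if_pos rfl]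
  split_ifs with h
  · exact le_rfl
  · refine div_le_div_of_nonneg_right ?_ (Prq_pos _ _).le
    have h1 := @Pr_one_ge k n (by omega)
    have hq := q_ge hk
    have h2 : 128 / q k ≤ q k / 128 := by
      rw [div_le_div_iff₀ q_pos (by norm_num)]
      nlinarith
    linarith

theorem one_le_g {k n : ℕ} (hn : b (k-1) ≤ n) : 1 ≤ g k n := by
  unfold g
  have hb : 0 < b (k-1) := lt_of_le_of_lt (Nat.zero_le _) (a_lt_b _)
  rw [if_neg (by omega), one_le_div (Prq_pos _ _)]
  exact Pr_mono q_pos.le hn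

theorem g_super {k n : ℕ} (hk : 3 ≤ k) (hn : n < b (k-1)) :
    f n * (g k (n+1) - g k n + g k 0) ≤ th k * g k n := by
  have hP := Prq_pos k (b (k-1))
  have hq0 := @q_pos k
  rcases Nat.eq_zero_or_pos n with h | h
  · subst h
    unfold g th
    rw [if_neg (by omega), if_pos rfl, Pr_succ, Pr_zero, f_zero]
    have e1 : 128 * (1 * (1 + q k / 128) / Pr (q k) (b (k-1)) - (1 + 128 / q k) / Pr (q k) (b (k-1)) +
      (1 + 128 / q k) / Pr (q k) (b (k-1))) = (q k * (1 + 128 / q k)) / Pr (q k) (b (k-1)) := by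
      field_simp
      ring
    rw [e1, ← mul_div_assoc]
    refine div_le_div_of_nonneg_right ?_ hP.le
    refine mul_le_mul_of_nonneg_right ?_ (by positivity)
    have : 0 ≤ 2^15 / q k := by positivity
    linarith
  · unfold g th
    rw [if_neg (by omega), if_neg (by omega), if_pos rfl, Pr_succ]
    have hf := f_pos n
    have e1 : f n * (Pr (q k) n * (1 + q k / f n) / Pr (q k) (b (k-1)) - Pr (q k) n / Pr (q k) (b (k-1)) +
      (1 + 128 / q k) / Pr (q k) (b (k-1))) =
      (q k * Pr (q k) n + f n * (1 + 128 / q k)) / Pr (q k) (b (k-1)) := by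
      field_simp
      ring
    rw [e1, ← mul_div_assoc]
    refine div_le_div_of_nonneg_right ?_ hP.le
    have := f_mul_le hk h hn
    linarith

end Pool.Agent.R953.FR
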