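import Pool.Agent.R953.FR.P2

/-!
# Fitness recursive trees with a bursting fitness: transitions between phases
-/

set_option autoImplicit false
open Finset

namespace Pool.Agent.R953.FR

theorem q_succ_pow (k : ℕ) (hk : 3 ≤ k) : (J k : ℝ) = (q (k+1))^3 := by
  unfold q
  have h1 : k + 1 - 2 = k - 1 := by omega
  have h2 : k = (k - 1) + 1 := by omega
  rw [h1]
  conv_lhs => rw [h2, J_succ]
  push_cast
  rfl

theorem J_q9 (k : ℕ) (hk : 3 ≤ k) : (J k : ℝ) = (q k)^9 := by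
  unfold q
  have h2 : k = (k - 2) + 1 + 1 := by omega
  conv_lhs => rw [h2, J_succ, J_succ]
  push_cast
  ring

theorem th_le_J {k : ℕ} (hk : 3 ≤ k) : th k / J k ≤ 1/2 := by
  have h1 := th_le hk
  have h2 := q_ge hk
  rw [J_q9 k hk]
  have hq := @q_pos k
  rw [div_le_iff₀ (by positivity)]
  have h3 : (q k)^1 ≤ (q k)^8 := pow_le_pow_right₀ (by linarith) (by norm_num)
  have h4 : (q k)^9 = (q k)^8 * q k := by ring
  rw [h4]
  nlinarith

theorem rho_pos {k : ℕ} (hk : 3 ≤ k) : 0 < rho k := by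
  unfold rho
  have := th_le_J hk
  linarith

theorem rho_le_one {k : ℕ} : rho k ≤ 1 := by
  unfold rho
  have h1 := @th_pos k
  have : 0 ≤ th k / J k := by positivity
  linarith

theorem rho_J {k : ℕ} : (J k : ℝ) * rho k = J k - th k := by
  unfold rho
  have : (J k : ℝ) ≠ 0 := by exact_mod_cast (J_pos k).ne'
  field_simp

theorem EE_ge (k : ℕ) : 1 ≤ EE k := by
  unfold EE
  rw [← Real.exp_zero]
  exact Real.exp_le_exp.mpr (by positivity)

theorem EE_le {k : ℕ} (hk : 3 ≤ k) : EE k ≤ 2 := by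
  unfold EE
  have h1 : (J 2 : ℝ) ≤ J (k-1) := by exact_mod_cast J_mono (by omega)
  have h2 : (J 2 : ℝ) = 2^63 := by unfold J; norm_num
  have h3 : (2:ℝ)^17 / J (k-1) ≤ 1/2 := by
    rw [div_le_iff₀ (by linarith [h2 ▸ h1, (by norm_num : (0:ℝ) < 2^63)])]
    rw [h2] at h1
    linarith
  have h4 : Real.exp (1/2) ≤ 2 := by
    have h5 : Real.exp (1/2) ^ 2 ≤ 4 := by
      rw [← Real.exp_nat_mul]
      have := Real.exp_one_lt_d9
      have e : ((2:ℕ):ℝ) * (1/2) = 1 := by norm_num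
      rw [e]
      linarith
    nlinarith [Real.exp_pos (1/2)]
  exact (Real.exp_le_exp.mpr h3).trans h4

/-- the multiplicative balance at the end of phase `k` -/
theorem EE_balance {k : ℕ} (hk : 3 ≤ k) :
    EE (k+1) * (rho (k+1))⁻¹ ^ (J (k+1)) ≤ EE k * (1 + q (k+1) / J k) ^ (J k) := by
  have hk1 : 3 ≤ k + 1 := by omega
  set Q := q (k+1) with hQ
  have hQ1 : 2^21 ≤ Q := q_ge hk1
  have hQ0 : 0 < Q := @q_pos (k+1)
  have hJk : (J k : ℝ) = Q^3 := q_succ_pow k hk
  have hJk1 : (J (k+1) : ℝ) = Q^9 := J_q9 (k+1) hk1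
  have hth : th (k+1) = Q + 2^15 / Q := rfl
  have hthle : th (k+1) ≤ Q + 1 := th_le hk1
  have hth0 : 0 < th (k+1) := th_pos
  have hx1 := th_le_J hk1
  -- left factor
  have hX : (rho (k+1))⁻¹ ^ (J (k+1)) ≤ Real.exp (th (k+1) + 2 * (th (k+1))^2 / Q^9) := by
    have h1 := inv_one_sub_le (x := th (k+1) / J (k+1)) (by positivity) hx1
    have h2 : (rho (k+1))⁻¹ ^ (J (k+1)) ≤ (Real.exp (th (k+1) / J (k+1) + 2 * (th (k+1) / J (k+1))^2)) ^ (J (k+1)) := by
      refine pow_le_pow_left₀ (inv_nonneg.mpr (rho_pos hk1).le) ?_ _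
      exact h1
    refine h2.trans ?_
    rw [← Real.exp_nat_mul]
    refine Real.exp_le_exp.mpr (le_of_eq ?_)
    rw [hJk1]
    field_simp
  have hY : Real.exp (Q - 1 / Q) ≤ (1 + Q / J k) ^ (J k) := by
    have h1 := exp_sub_sq_le (y := Q / J k) (by positivity)
    have h2 : (Real.exp (Q / J k - (Q / J k)^2)) ^ (J k) ≤ (1 + Q / J k) ^ (J k) :=
      pow_le_pow_left₀ (Real.exp_pos _).le h1 _
    refine le_trans (le_of_eq ?_) h2
    rw [← Real.exp_nat_mul]
    congr 1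
    rw [hJk]
    field_simp
  have hE : EE (k+1) = Real.exp (2^17 / Q^3) := by
    unfold EE
    rw [← hJk]
    rfl
  have hE' : EE k = Real.exp (2^17 / Q) := by
    unfold EE
    rfl
  calc EE (k+1) * (rho (k+1))⁻¹ ^ (J (k+1)) ≤ Real.exp (2^17 / Q^3) * Real.exp (th (k+1) + 2 * (th (k+1))^2 / Q^9) := by
        rw [hE]
        exact mul_le_mul_of_nonneg_left hX (Real.exp_pos _).le
    _ = Real.exp (2^17 / Q^3 + (th (k+1) + 2 * (th (k+1))^2 / Q^9)) := (Real.exp_add _ _).symm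
    _ ≤ Real.exp (2^17 / Q + (Q - 1 / Q)) := by
        refine Real.exp_le_exp.mpr ?_
        rw [hth]
        have hle2 : (Q + 2^15 / Q)^2 ≤ 4 * Q^2 := by
          have h3 : Q + 2^15 / Q ≤ 2 * Q := by
            have : Q + 2^15/Q ≤ Q + 1 := hthle
            linarith
          have h4 : 0 ≤ Q + 2^15 / Q := by positivity
          nlinarith
        have h6 : 2 * (Q + 2^15 / Q)^2 / Q^9 ≤ 1 / Q := by
          rw [div_le_div_iff₀ (by positivity) hQ0]
          have h7 : 8 ≤ Q^6 := by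
            calc (8:ℝ) ≤ 2^21 := by norm_num
              _ ≤ Q^1 := by rw [pow_one]; exact hQ1
              _ ≤ Q^6 := pow_le_pow_right₀ (by linarith) (by norm_num)
          have h8 : 8 * Q^3 ≤ Q^6 * Q^3 := mul_le_mul_of_nonneg_right h7 (by positivity)
          have e9 : Q^6 * Q^3 = Q^9 := by ring
          have h10 : 2 * (Q + 2^15 / Q)^2 * Q ≤ 2 * (4 * Q^2) * Q := by
            refine mul_le_mul_of_nonneg_right ?_ hQ0.le
            linarith
          have e11 : 2 * (4 * Q^2) * Q = 8 * Q^3 := by ring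
          linarith
        have h9 : 2^17 / Q^3 ≤ 1 / Q := by
          rw [div_le_div_iff₀ (by positivity) hQ0]
          have : (2:ℝ)^17 ≤ Q^2 := by nlinarith
          have e : Q^3 = Q^2 * Q := by ring
          rw [e]
          have := mul_le_mul_of_nonneg_right this hQ0.le
          linarith
        have h10 : 2^17 / Q = 2^15 / Q + (2^17 - 2^15) * (1 / Q) := by field_simp; ring
        have h11 : 0 < 1 / Q := by positivity
        nlinarith
    _ = Real.exp (2^17 / Q) * Real.exp (Q - 1 / Q) := by rw [Real.exp_add]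
    _ ≤ EE k * (1 + Q / J k) ^ (J k) := by
        rw [hE']
        exact mul_le_mul_of_nonneg_left hY (Real.exp_pos _).le

theorem Pr_bk_ge {k : ℕ} (hk : 3 ≤ k) (θ : ℝ) (hθ : 0 ≤ θ) :
    Pr θ (b (k-1)) * (1 + θ / J k) ^ (J k) ≤ Pr θ (b k) := by
  rw [Pr_b θ k]
  refine mul_le_mul_of_nonneg_right ?_ (by positivity)
  refine Pr_mono hθ ?_
  have h : k - 1 + 1 = k := by omega
  have := b_lt_a (k-1)
  rw [h] at this
  exact this.le

theorem q_mono {i j : ℕ} (h : i ≤ j) : q i ≤ q j := by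
  unfold q
  exact_mod_cast J_mono (by omega)

theorem g_trans {k n : ℕ} (hk : 3 ≤ k) (hn : n ≤ b (k-1)) :
    EE (k+1) * (rho (k+1))⁻¹ ^ (J (k+1)) * g (k+1) n ≤ EE k * g k n := by
  have hbal := EE_balance hk
  have hQ0 := @q_pos (k+1)
  have hq0 := @q_pos k
  have hqQ : q k ≤ q (k+1) := q_mono (by omega)
  have hP1 := Prq_pos k (b (k-1))
  have hP2 := Prq_pos (k+1) (b (k-1))
  have hy : 0 < (1 + q (k+1) / J k) ^ (J k) := by positivity
  have hbk := Pr_bk_ge hk (q (k+1)) hQ0.le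
  -- g (k+1) n * y ≤ g k n
  have key : g (k+1) n * (1 + q (k+1) / J k) ^ (J k) ≤ g k n := by
    have h0 : g (k+1) n * (1 + q (k+1) / J k) ^ (J k) ≤
        (if n = 0 then 1 + 128 / q (k+1) else Pr (q (k+1)) n) / Pr (q (k+1)) (b (k-1)) := by
      unfold g
      have e : k + 1 - 1 = k := by omega
      rw [e, div_mul_eq_mul_div, div_le_div_iff₀ (Prq_pos _ _) hP2]
      have hnum : 0 ≤ (if n = 0 then 1 + 128 / q (k+1) else Pr (q (k+1)) n) := by
        split_ifs
        · positivity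
        · exact (Prq_pos _ _).le
      calc (if n = 0 then 1 + 128 / q (k+1) else Pr (q (k+1)) n) * (1 + q (k+1) / J k) ^ (J k) * Pr (q (k+1)) (b (k-1))
          = (if n = 0 then 1 + 128 / q (k+1) else Pr (q (k+1)) n) * (Pr (q (k+1)) (b (k-1)) * (1 + q (k+1) / J k) ^ (J k)) := by ring
        _ ≤ _ := mul_le_mul_of_nonneg_left hbk hnum
    refine h0.trans ?_
    unfold g
    rw [div_le_div_iff₀ hP2 hP1]
    split_ifs with hn0
    · have h1 : 128 / q (k+1) ≤ 128 / q k := div_le_div_of_nonneg_left (by norm_num) hq0 hqQ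
      have h2 : Pr (q k) (b (k-1)) ≤ Pr (q (k+1)) (b (k-1)) := by
        have := Pr_cross hq0.le hqQ (Nat.zero_le (b (k-1)))
        rw [Pr_zero, Pr_zero] at this
        linarith
      have h3 : 0 < 128 / q (k+1) := by positivity
      exact mul_le_mul (by linarith) h2 hP1.le (by linarith)
    · have := Pr_cross hq0.le hqQ hn
      linarith
  have hg := g_pos (k+1) n
  calc EE (k+1) * (rho (k+1))⁻¹ ^ (J (k+1)) * g (k+1) n ≤ EE k * (1 + q (k+1) / J k) ^ (J k) * g (k+1) n :=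
        mul_le_mul_of_nonneg_right hbal hg.le
    _ = EE k * (g (k+1) n * (1 + q (k+1) / J k) ^ (J k)) := by ring
    _ ≤ EE k * g k n := mul_le_mul_of_nonneg_left key (le_trans zero_le_one (EE_ge k))

theorem g_newborn {k : ℕ} (hk : 3 ≤ k) :
    EE (k+1) * (rho (k+1))⁻¹ ^ (J (k+1)) * g (k+1) 0 ≤ 4 * (1/2)^(J (k-1)) := by
  have hbal := EE_balance hk
  have hQ0 := @q_pos (k+1)
  have hQ1 := q_ge (k := k+1) (by omega)
  have hE := EE_le hk
  have hy : 0 < (1 + q (k+1) / J k) ^ (J k) := by positivity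
  have hbk := Pr_bk_ge hk (q (k+1)) hQ0.le
  have h1 : (2:ℝ)^(J (k-1)) ≤ Pr (q (k+1)) (b (k-1)) := by
    rw [Pr_b]
    have h2 : (2:ℝ)^(J (k-1)) ≤ (1 + q (k+1) / J (k-1))^(J (k-1)) := by
      refine two_pow_le ?_
      unfold q
      have : k + 1 - 2 = k - 1 := by omega
      rw [this]
    have h3 := one_le_Pr hQ0.le (a (k-1))
    calc (2:ℝ)^(J (k-1)) ≤ (1 + q (k+1) / J (k-1))^(J (k-1)) := h2
      _ ≤ _ := le_mul_of_one_le_left (by positivity) h3
  have h4 : g (k+1) 0 * (1 + q (k+1) / J k) ^ (J k) ≤ 2 * (1/2)^(J (k-1)) := by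
    unfold g
    have e : k + 1 - 1 = k := by omega
    rw [e, if_pos rfl, div_mul_eq_mul_div, div_le_iff₀ (Prq_pos _ _)]
    have h5 : 1 + 128 / q (k+1) ≤ 2 := by
      have : 128 / q (k+1) ≤ 1 := by
        rw [div_le_one hQ0]
        linarith
      linarith
    calc (1 + 128 / q (k+1)) * (1 + q (k+1) / J k) ^ (J k) ≤ 2 * (1 + q (k+1) / J k) ^ (J k) :=
          mul_le_mul_of_nonneg_right h5 hy.le
      _ = 2 * (1/2)^(J (k-1)) * ((2:ℝ)^(J (k-1)) * (1 + q (k+1) / J k) ^ (J k)) := by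
          have : (1/2:ℝ)^(J (k-1)) * 2^(J (k-1)) = 1 := by
            rw [← mul_pow]; norm_num
          calc 2 * (1 + q (k+1) / J k) ^ (J k) = 2 * ((1/2:ℝ)^(J (k-1)) * 2^(J (k-1))) * (1 + q (k+1) / J k) ^ (J k) := by
                rw [this, mul_one]
            _ = _ := by ring
      _ ≤ 2 * (1/2)^(J (k-1)) * (Pr (q (k+1)) (b (k-1)) * (1 + q (k+1) / J k) ^ (J k)) := by
          refine mul_le_mul_of_nonneg_left ?_ (by positivity)
          exact mul_le_mul_of_nonneg_right h1 hy.le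
      _ ≤ _ := mul_le_mul_of_nonneg_left hbk (by positivity)
  have hg := g_pos (k+1) 0
  calc EE (k+1) * (rho (k+1))⁻¹ ^ (J (k+1)) * g (k+1) 0 ≤ EE k * (1 + q (k+1) / J k) ^ (J k) * g (k+1) 0 :=
        mul_le_mul_of_nonneg_right hbal hg.le
    _ = EE k * (g (k+1) 0 * (1 + q (k+1) / J k) ^ (J k)) := by ring
    _ ≤ 2 * (2 * (1/2)^(J (k-1))) := by
        refine mul_le_mul hE h4 (by positivity) (by norm_num)
    _ = _ := by ring

theorem two_half (k : ℕ) : (2:ℝ)^(J k / 2) * 2^(J k / 2) = 2^(J k) := by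
  rw [← pow_add, J_half]

theorem half_half (k : ℕ) : (1/2:ℝ)^(J k) * 2^(J k / 2) = (1/2)^(J k / 2) := by
  have h : J k = J k / 2 + J k / 2 := (J_half k).symm
  conv_lhs => rw [h]
  rw [pow_add, mul_assoc]
  have e : (J k / 2 + J k / 2) / 2 = J k / 2 := by omega
  rw [e, ← mul_pow]
  norm_num

/-- the reserve inequality -/
theorem reserve {k : ℕ} (hk : 3 ≤ k) :
    EE (k+1) * (rho (k+1))⁻¹ ^ (J (k+1)) * (((K k : ℝ) + J (k+1)) * g (k+1) 0) + K k * tau k + RR (k+1)
      ≤ RR k := by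
  have h1 := g_newborn hk
  have hk1 : k - 1 + 2 = k + 1 := by omega
  have hK : (K k : ℝ) = 2^(J (k-1)/2) := by unfold K; push_cast; rfl
  have hJ : (J (k+1) : ℝ) ≤ 2^(J (k-1)/2) := by
    have h2 : J (k+1) = (J (k-1))^9 := by
      rw [← hk1, J_succ, J_succ]; ring
    rw [h2]
    exact_mod_cast J_pow9 (k-1)
  set Y : ℝ := (1/2)^(J (k-1)/2) with hY
  have hYpos : 0 < Y := by positivity
  have hpos2 : (0:ℝ) < 2^(J (k-1)/2) := by positivity
  have t1 : EE (k+1) * (rho (k+1))⁻¹ ^ (J (k+1)) * (((K k : ℝ) + J (k+1)) * g (k+1) 0) ≤ 8 * Y := by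
    calc EE (k+1) * (rho (k+1))⁻¹ ^ (J (k+1)) * (((K k : ℝ) + J (k+1)) * g (k+1) 0)
        = (EE (k+1) * (rho (k+1))⁻¹ ^ (J (k+1)) * g (k+1) 0) * ((K k : ℝ) + J (k+1)) := by ring
      _ ≤ (4 * (1/2)^(J (k-1))) * ((K k : ℝ) + J (k+1)) := mul_le_mul_of_nonneg_right h1 (by positivity)
      _ ≤ (4 * (1/2)^(J (k-1))) * (2 * 2^(J (k-1)/2)) := by
          refine mul_le_mul_of_nonneg_left ?_ (by positivity)
          rw [hK]
          linarith
      _ = 8 * ((1/2)^(J (k-1)) * 2^(J (k-1)/2)) := by ring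
      _ = 8 * Y := by rw [half_half]
  have hJk : J k = (J (k-1))^3 := by
    have : k = (k-1) + 1 := by omega
    conv_lhs => rw [this, J_succ]
  have hx : 128 ≤ J (k-1) := J_ge128 _
  have hx3 : 8 * J (k-1) ≤ J k := by
    rw [hJk]
    have : 8 ≤ (J (k-1))^2 := by nlinarith
    calc 8 * J (k-1) ≤ (J (k-1))^2 * J (k-1) := Nat.mul_le_mul_right _ this
      _ = _ := by ring
  have hJ2 : J (k-2) ≤ J (k-1) := J_mono (by omega)
  have t2 : (K k : ℝ) * tau k ≤ Y := by
    unfold tau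
    have e1 : (K k : ℝ) * (2 * K k * H (k-2) / H k) = 2 * (2^(J (k-1)) * 2^(J (k-2))) / 2^(J k) := by
      have hH : (H k : ℝ) = 2^(J k) := by unfold H; push_cast; rfl
      have hH2 : (H (k-2) : ℝ) = 2^(J (k-2)) := by unfold H; push_cast; rfl
      rw [hH, hH2, hK, ← two_half (k-1)]
      ring
    rw [e1, div_le_iff₀ (by positivity), hY]
    have e2 : (2:ℝ)^(J k) = 2^(J (k-1)/2) * 2^(J k - J (k-1)/2) := by
      rw [← pow_add]; congr 1; omega
    have e3 : (1/2:ℝ)^(J (k-1)/2) * 2^(J (k-1)/2) = 1 := by rw [← mul_pow]; norm_num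
    have e5 : (1/2:ℝ)^(J (k-1)/2) * 2^(J k) = 2^(J k - J (k-1)/2) := by
      rw [e2, ← mul_assoc, e3, one_mul]
    rw [e5, ← pow_add]
    have e4 : (2:ℝ) * 2^(J (k-1) + J (k-2)) = 2^(J (k-1) + J (k-2) + 1) := by ring
    rw [e4]
    refine pow_le_pow_right₀ (by norm_num) ?_
    omega
  have t3 : RR (k+1) ≤ Y := by
    unfold RR
    have e : k + 1 - 1 = k := by omega
    rw [e, hY]
    have h5 : (1/2:ℝ)^(J k / 2) ≤ (1/2)^(J (k-1)/2 + 4) := by
      refine pow_le_pow_of_le_one (by norm_num) (by norm_num) ?_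
      omega
    rw [pow_add] at h5
    calc 16 * (1/2:ℝ)^(J k / 2) ≤ 16 * ((1/2)^(J (k-1)/2) * (1/2)^4) := by linarith
      _ = _ := by ring
  have hR : RR k = 16 * Y := rfl
  rw [hR]
  linarith

theorem N_mul_g {k : ℕ} (hk : 3 ≤ k) : 1 ≤ ((N k : ℝ) + 1) * g k 0 := by
  have hq0 := @q_pos k
  have h1 : Pr (q k) (b (k-1)) ≤ N k := by
    have h2 : Pr (q k) (b (k-1)) ≤ Pr (q k) (a k) := by
      refine Pr_mono hq0.le ?_
      have h : k - 1 + 1 = k := by omega
      have := b_lt_a (k-1)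
      rw [h] at this
      exact this.le
    refine h2.trans ((Pr_a_le hq0.le k).trans ?_)
    have e : q k * (2 * k) = ((k * J (k-2) : ℕ) : ℝ) * 2 := by unfold q; push_cast; ring
    rw [e, Real.exp_nat_mul]
    have h3 : Real.exp 2 ≤ 8 := by
      have e2 : (2:ℝ) = ((2:ℕ):ℝ) * 1 := by norm_num
      rw [e2, Real.exp_nat_mul]
      have := Real.exp_one_lt_d9
      have h0 := Real.exp_pos 1
      nlinarith
    calc Real.exp 2 ^ (k * J (k-2)) ≤ 8 ^ (k * J (k-2)) := pow_le_pow_left₀ (Real.exp_pos _).le h3 _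
      _ = (N k : ℝ) := by
          unfold N
          push_cast
          have : (8:ℝ) = 2^3 := by norm_num
          rw [this, ← pow_mul]
          congr 1
          ring
  unfold g
  rw [if_pos rfl, ← mul_div_assoc, one_le_div (Prq_pos _ _)]
  have h2 : (0:ℝ) ≤ N k := by positivity
  have h3 : 0 ≤ 128 / q k := by positivity
  nlinarith

theorem N_le_K {k : ℕ} (hk : 3 ≤ k) : N k + 1 ≤ K k := by
  unfold N K
  have h1 := J_ge (k-2)
  have hJk : J (k-1) = (J (k-2))^3 := by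
    have : k - 1 = (k-2) + 1 := by omega
    rw [this, J_succ]
  have h2 : 3 * k * J (k-2) + 1 ≤ J (k-1) / 2 := by
    have h3 : 8 * k ≤ (J (k-2))^2 := by
      have h31 : k ≤ J (k-2) := by omega
      have h32 : 8 ≤ J (k-2) := by have := J_ge128 (k-2); omega
      calc 8 * k ≤ J (k-2) * J (k-2) := Nat.mul_le_mul h32 h31
        _ = _ := by ring
    have h4 : 8 * k * J (k-2) ≤ J (k-1) := by
      rw [hJk]
      calc 8 * k * J (k-2) ≤ (J (k-2))^2 * J (k-2) := Nat.mul_le_mul_right _ h3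
        _ = _ := by ring
    have h5 : 1 ≤ k * J (k-2) := Nat.mul_pos (by omega) (J_pos _)
    have h6 : 8 * (k * J (k-2)) ≤ J (k-1) := by rw [← mul_assoc]; exact h4
    have h7 : 3 * k * J (k-2) = 3 * (k * J (k-2)) := by ring
    rw [h7]
    omega
  calc 2 ^ (3 * k * J (k-2)) + 1 ≤ 2 ^ (3 * k * J (k-2)) + 2 ^ (3 * k * J (k-2)) := by
        have := Nat.one_le_two_pow (n := 3 * k * J (k-2))
        omega
    _ = 2 ^ (3 * k * J (k-2) + 1) := by ring
    _ ≤ _ := Nat.pow_le_pow_right (by norm_num) h2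

end Pool.Agent.R953.FR
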