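import Pool.Agent.R953.FR.P3

/-!
# Fitness recursive trees with a bursting fitness: histories and the Lyapunov function
-/

set_option autoImplicit false
open Finset

namespace Pool.Agent.R953.FR

/-- total fitness after a history (list of picks, most recent first) -/
noncomputable def Z (h : List ℕ) : ℝ := ∑ v ∈ range (h.length + 1), f (h.count v)

/-- pick probabilities -/
noncomputable def p (h : List ℕ) (v : ℕ) : ℝ := f (h.count v) / Z h

/-- one-step operator -/
noncomputable def Pop (F : List ℕ → ℝ) (h : List ℕ) : ℝ :=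
  ∑ v ∈ range (h.length + 1), p h v * F (v :: h)

theorem Z_pos (h : List ℕ) : 0 < Z h :=
  sum_pos (fun v _ => f_pos _) ⟨0, by simp⟩

theorem p_nonneg (h : List ℕ) (v : ℕ) : 0 ≤ p h v := div_nonneg (f_pos _).le (Z_pos h).le

theorem p_pos (h : List ℕ) (v : ℕ) : 0 < p h v := div_pos (f_pos _) (Z_pos h)

theorem sum_p (h : List ℕ) : ∑ v ∈ range (h.length + 1), p h v = 1 := by
  unfold p
  rw [← sum_div]
  exact div_self (Z_pos h).ne'

theorem Pop_mono {F G : List ℕ → ℝ} {h : List ℕ} (hFG : ∀ v ≤ h.length, F (v :: h) ≤ G (v :: h)) :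
    Pop F h ≤ Pop G h :=
  sum_le_sum fun v hv => mul_le_mul_of_nonneg_left (hFG v (by rw [mem_range] at hv; omega)) (p_nonneg h v)

theorem Pop_const (c : ℝ) (h : List ℕ) : Pop (fun _ => c) h = c := by
  unfold Pop
  rw [← sum_mul, sum_p, one_mul]

theorem Pop_add (F G : List ℕ → ℝ) (h : List ℕ) : Pop (fun x => F x + G x) h = Pop F h + Pop G h := by
  unfold Pop
  rw [← sum_add_distrib]
  exact sum_congr rfl fun v _ => by ring

theorem Pop_nonneg {F : List ℕ → ℝ} (hF : ∀ x, 0 ≤ F x) (h : List ℕ) : 0 ≤ Pop F h :=
  sum_nonneg fun v _ => mul_nonneg (p_nonneg h v) (hF _)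

theorem iter_mono {F G : List ℕ → ℝ} (hFG : ∀ x, F x ≤ G x) (n : ℕ) (h : List ℕ) :
    Pop^[n] F h ≤ Pop^[n] G h := by
  induction n generalizing h with
  | zero => exact hFG h
  | succ n ih =>
    rw [Function.iterate_succ_apply', Function.iterate_succ_apply']
    exact Pop_mono fun v _ => ih (v :: h)

/-- the conditions on a state -/
def Cond (h : List ℕ) : Prop :=
  (∀ u, 1 ≤ u → h.count u < b (ph (h.count 0) - 1)) ∧
  (h.count 0 < b (ph (h.count 0)) → h.length ≤ N (ph (h.count 0)))

/-- the starting phase -/
noncomputable def k0 : ℕ := Classical.choose (⟨4, rfl⟩ : ∃ k : ℕ, k = 4)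

theorem k0_eq : k0 = 4 := Classical.choose_spec (⟨4, rfl⟩ : ∃ k : ℕ, k = 4)

/-- the starting history: a star -/
noncomputable def base : List ℕ := List.replicate (a k0) 0

inductive Good : List ℕ → Prop
  | base : Good base
  | step (h : List ℕ) (v : ℕ) : Good h → v ≤ h.length → (b (ph (h.count 0)) ≤ h.count 0 → v = 0) →
      Cond (v :: h) → Good (v :: h)

theorem base_length : base.length = a k0 := by unfold base; exact List.length_replicate

theorem base_count_zero : base.count 0 = a k0 := by
  unfold base; exact List.count_replicate_self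

theorem base_count {u : ℕ} (hu : 1 ≤ u) : base.count u = 0 := by
  unfold base
  rw [List.count_replicate]
  have : (0 == u) = false := by
    rw [beq_eq_false_iff_ne]; omega
  rw [this]
  rfl

theorem count_cons' (u v : ℕ) (h : List ℕ) : (v :: h).count u = h.count u + if u = v then 1 else 0 := by
  rw [List.count_cons]
  by_cases huv : u = v
  · subst huv; simp
  · rw [if_neg huv]
    have : (v == u) = false := by rw [beq_eq_false_iff_ne]; exact fun e => huv e.symm
    rw [this]
    rfl

theorem Good.length {h : List ℕ} (hG : Good h) : a k0 ≤ h.length := by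
  induction hG with
  | base => exact base_length.ge
  | step h v hG _ _ _ ih => exact ih.trans (by simp)

theorem Good.count_zero {h : List ℕ} (hG : Good h) : a k0 ≤ h.count 0 := by
  induction hG with
  | base => exact base_count_zero.ge
  | step h v hG _ _ _ ih => rw [count_cons']; omega

theorem Good.inv {h : List ℕ} {v : ℕ} (hG : Good (v :: h)) (hl : a k0 ≤ h.length) :
    Good h ∧ v ≤ h.length ∧ (b (ph (h.count 0)) ≤ h.count 0 → v = 0) ∧ Cond (v :: h) := by
  generalize hx : v :: h = x at hG
  cases hG with
  | base =>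
    exfalso
    have h1 := congrArg List.length hx
    rw [base_length, List.length_cons] at h1
    omega
  | step h' v' h1 h2 h3 h4 =>
    injection hx with e1 e2
    subst e1 e2
    exact ⟨h1, h2, h3, h4⟩

theorem a_le {k : ℕ} (hk : 2 ≤ k) : a k ≤ 2 ^ (J (k-2)) := by
  induction k, hk using Nat.le_induction with
  | base =>
    show a 1 + J 1 + K 1 ≤ _
    have h1 : a 1 = 0 + J 0 + K 0 := rfl
    have hK0 : K 0 = 2^64 := by unfold K; rw [Nat.zero_sub, J_zero]
    have hK1 : K 1 = 2^64 := by unfold K; rw [Nat.sub_self, J_zero]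
    rw [h1, J_zero, J_one, hK0, hK1]
    have : J (2-2) = 128 := J_zero
    norm_num
  | succ k hk ih =>
    have e : k + 1 - 2 = k - 1 := by omega
    rw [e]
    have hJ1 : J (k-1) = (J (k-2))^3 := by
      have : k - 1 = (k-2) + 1 := by omega
      rw [this, J_succ]
    have hx := J_ge128 (k-2)
    have h2 : J (k-2) ≤ J (k-1) / 2 := by
      have h3 : 2 * J (k-2) ≤ J (k-1) := by
        rw [hJ1]
        calc 2 * J (k-2) ≤ (J (k-2))^2 * J (k-2) := Nat.mul_le_mul_right _ (by nlinarith)
          _ = _ := by ring
      omega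
    have h4 : J k ≤ 2^(J (k-1)/2) := by
      have : k = (k-1)+1 := by omega
      conv_lhs => rw [this]
      exact J_succ_le _
    have h5 : 2 ^ (J (k-2)) ≤ 2^(J (k-1)/2) := Nat.pow_le_pow_right (by norm_num) h2
    have h6 : K k = 2^(J (k-1)/2) := rfl
    have h7 : 2^(J (k-1)/2) * 2^(J (k-1)/2) = 2^(J (k-1)) := by rw [← pow_add, J_half]
    have h8 : 4 ≤ 2^(J (k-1)/2) := by
      calc 4 = 2^2 := by norm_num
        _ ≤ _ := Nat.pow_le_pow_right (by norm_num) (by have := J_ge128 (k-1); omega)
    show a k + J k + K k ≤ _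
    nlinarith

theorem a_le_N {k : ℕ} (hk : 2 ≤ k) : a k ≤ N k := by
  refine (a_le hk).trans ?_
  unfold N
  refine Nat.pow_le_pow_right (by norm_num) ?_
  exact Nat.le_mul_of_pos_left _ (by omega)

theorem base_Cond : Cond base := by
  have hph : ph (base.count 0) = k0 := by
    rw [base_count_zero]
    exact ph_eq le_rfl (a_strictMono (Nat.lt_succ_self _))
  constructor
  · intro u hu
    rw [base_count hu, hph]
    exact lt_of_le_of_lt (Nat.zero_le _) (a_lt_b _)
  · intro _
    rw [base_length, hph]
    exact a_le_N (by rw [k0_eq]; norm_num)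

theorem Good.cond {h : List ℕ} (hG : Good h) : Cond h := by
  cases hG with
  | base => exact base_Cond
  | step h v _ _ _ h4 => exact h4

theorem Good.count_big {h : List ℕ} (hG : Good h) : ∀ u, h.length ≤ u → h.count u = 0 := by
  induction hG with
  | base =>
    intro u hu
    refine base_count ?_
    rw [base_length] at hu
    have : 0 < a k0 := lt_of_le_of_lt (Nat.zero_le _) (a_strictMono (by rw [k0_eq]; norm_num : 3 < k0))
    omega
  | step h v hG hv _ _ ih =>
    intro u hu
    rw [List.length_cons] at hu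
    rw [count_cons', ih u (by omega), if_neg (by omega)]

theorem Good.ph_ge {h : List ℕ} (hG : Good h) : 4 ≤ ph (h.count 0) := by
  have h1 := hG.count_zero
  have h2 := lt_a_ph (h.count 0)
  have h3 := k0_eq
  by_contra hc
  have : a (ph (h.count 0) + 1) ≤ a k0 := a_strictMono.monotone (by omega)
  omega

theorem Good.fast_inv {h : List ℕ} (hG : Good h) : ∀ k, b k ≤ h.count 0 → h.count 0 < a (k+1) →
    h.length ≤ N k + 1 + (h.count 0 - b k) ∧ ∀ u, N k + 1 ≤ u → h.count u = 0 := by
  induction hG with
  | base =>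
    intro k h1 h2
    exfalso
    rw [base_count_zero] at h1 h2
    have h3 : a k < a k0 := (a_lt_b k).trans_le h1
    have h4 := a_strictMono.lt_iff_lt.mp h3
    have h5 := a_strictMono.lt_iff_lt.mp h2
    omega
  | step h v hG hv hfast hcond ih =>
    intro k h1 h2
    rw [count_cons'] at h1 h2 ⊢
    rw [List.length_cons]
    rcases Nat.lt_or_ge (h.count 0) (b k) with hlt | hge
    · have hv0 : 0 = v := by
        by_contra hne
        rw [if_neg hne] at h1
        omega
      subst hv0
      rw [if_pos rfl] at h1 h2 ⊢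
      have hak : a k ≤ h.count 0 := by have := a_lt_b k; omega
      have hph : ph (h.count 0) = k := ph_eq hak (hlt.trans (b_lt_a k))
      have hlen := (hG.cond).2 (by rw [hph]; exact hlt)
      rw [hph] at hlen
      refine ⟨by omega, fun u hu => ?_⟩
      rw [count_cons', hG.count_big u (by omega), if_neg (by omega)]
    · have hlt2 : h.count 0 < a (k+1) := by
        split_ifs at h2 <;> omega
      have hph : ph (h.count 0) = k := ph_eq ((a_lt_b k).le.trans hge) hlt2
      have hv0 : v = 0 := hfast (by rw [hph]; exact hge)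
      subst hv0
      obtain ⟨i1, i2⟩ := ih k hge hlt2
      rw [if_pos rfl]
      refine ⟨by omega, fun u hu => ?_⟩
      rw [count_cons', i2 u hu, if_neg (by omega)]

end Pool.Agent.R953.FR
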