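import Pool.Agent.R953.FR.P4

/-!
# Fitness recursive trees with a bursting fitness: the supermartingale
-/

set_option autoImplicit false
open Finset

namespace Pool.Agent.R953.FR

noncomputable def S (k : ℕ) (h : List ℕ) : ℝ := ∑ v ∈ Icc 1 h.length, g k (h.count v)

/-- Lyapunov function while the root is in slow block `k` -/
noncomputable def Vs (k : ℕ) (h : List ℕ) : ℝ :=
  EE k * ((S k h + ((b k - h.count 0 : ℕ) : ℝ) * g k 0) * (rho k)⁻¹ ^ (b k - h.count 0)) + RR k

/-- Lyapunov function while the root is in fast block `k` -/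
noncomputable def Vf (k : ℕ) (h : List ℕ) : ℝ :=
  EE (k+1) * (rho (k+1))⁻¹ ^ (J (k+1)) *
      (S (k+1) h + (((a (k+1) - h.count 0 : ℕ) : ℝ) + J (k+1)) * g (k+1) 0)
    + ((a (k+1) - h.count 0 : ℕ) : ℝ) * tau k + RR (k+1)

noncomputable def V (h : List ℕ) : ℝ :=
  if h.count 0 < b (ph (h.count 0)) then Vs (ph (h.count 0)) h else Vf (ph (h.count 0)) h

open Classical in
noncomputable def FF (h : List ℕ) : ℝ := if Good h then V h else 1

theorem S_nonneg (k : ℕ) (h : List ℕ) : 0 ≤ S k h := sum_nonneg fun _ _ => (g_pos k _).le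

theorem tau_nonneg (k : ℕ) : 0 ≤ tau k := by unfold tau; positivity

theorem RR_nonneg (k : ℕ) : 0 ≤ RR k := by unfold RR; positivity

theorem EE_pos (k : ℕ) : 0 < EE k := lt_of_lt_of_le one_pos (EE_ge k)

theorem rinv_ge {k : ℕ} (hk : 3 ≤ k) : 1 ≤ (rho k)⁻¹ := by
  rw [one_le_inv₀ (rho_pos hk)]
  exact rho_le_one

theorem Vs_nonneg {k : ℕ} (hk : 3 ≤ k) (h : List ℕ) : 0 ≤ Vs k h := by
  unfold Vs
  have h1 := S_nonneg k h
  have h2 := (g_pos k 0).le
  have h3 := EE_pos k
  have h4 := rinv_ge hk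
  have h5 := RR_nonneg k
  have h6 : 0 ≤ (rho k)⁻¹ := by linarith
  positivity

theorem Vf_nonneg {k : ℕ} (hk : 3 ≤ k) (h : List ℕ) : 0 ≤ Vf k h := by
  unfold Vf
  have h1 := S_nonneg (k+1) h
  have h2 := (g_pos (k+1) 0).le
  have h3 := EE_pos (k+1)
  have h4 := rinv_ge (k := k+1) (by omega)
  have h5 := RR_nonneg (k+1)
  have h6 := tau_nonneg k
  have h7 : 0 ≤ (rho (k+1))⁻¹ := by linarith
  positivity

theorem Icc_succ (t : ℕ) : Icc 1 (t+1) = insert (t+1) (Icc 1 t) := by
  ext x
  simp only [mem_insert, mem_Icc]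
  omega

theorem S_cons_zero (k : ℕ) (h : List ℕ) (hc : h.count (h.length + 1) = 0) :
    S k (0 :: h) = S k h + g k 0 := by
  unfold S
  rw [List.length_cons, Icc_succ]
  rw [sum_insert (by simp)]
  rw [add_comm]
  congr 1
  · refine sum_congr rfl fun v hv => ?_
    rw [mem_Icc] at hv
    rw [count_cons', if_neg (by omega), Nat.add_zero]
  · rw [count_cons', if_neg (by omega)]
    rw [hc]

theorem S_cons (k : ℕ) (h : List ℕ) {v : ℕ} (hv : 1 ≤ v) (hv2 : v ≤ h.length)
    (hc : h.count (h.length + 1) = 0) :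
    S k (v :: h) = S k h + (g k (h.count v + 1) - g k (h.count v)) + g k 0 := by
  unfold S
  rw [List.length_cons, Icc_succ]
  rw [sum_insert (by simp)]
  have e1 : g k ((v :: h).count (h.length + 1)) = g k 0 := by
    rw [count_cons', if_neg (by omega), hc]
  have e2 : ∑ u ∈ Icc 1 h.length, g k ((v :: h).count u) =
      ∑ u ∈ Icc 1 h.length, g k (h.count u) + (g k (h.count v + 1) - g k (h.count v)) := by
    have e3 : ∀ u ∈ Icc 1 h.length, g k ((v :: h).count u) =
        g k (h.count u) + if u = v then g k (h.count v + 1) - g k (h.count v) else 0 := by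
      intro u _
      rw [count_cons']
      by_cases huv : u = v
      · subst huv
        simp
      · rw [if_neg huv, if_neg huv]
        simp
    rw [sum_congr rfl e3, sum_add_distrib, sum_ite_eq' (Icc 1 h.length) v, if_pos (mem_Icc.mpr ⟨hv, hv2⟩)]
  rw [e1, e2]
  ring

theorem range_split (t : ℕ) (φ : ℕ → ℝ) :
    ∑ v ∈ range (t+1), φ v = φ 0 + ∑ v ∈ Icc 1 t, φ v := by
  have : range (t+1) = insert 0 (Icc 1 t) := by
    ext x
    simp only [mem_range, mem_insert, mem_Icc]
    omega
  rw [this, sum_insert (by simp)]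

theorem S_ge_one_of_count {k : ℕ} {h : List ℕ} {u : ℕ} (hu : 1 ≤ u) (hu2 : u ≤ h.length)
    (hc : b (k-1) ≤ h.count u) : 1 ≤ S k h := by
  unfold S
  refine (one_le_g hc).trans ?_
  exact single_le_sum (f := fun v => g k (h.count v)) (fun v _ => (g_pos k _).le) (mem_Icc.mpr ⟨hu, hu2⟩)

theorem S_ge_one_of_length {k : ℕ} (hk : 3 ≤ k) {h : List ℕ} (hl : N k < h.length) : 1 ≤ S k h := by
  unfold S
  have h1 : (h.length : ℝ) * g k 0 ≤ ∑ v ∈ Icc 1 h.length, g k (h.count v) := by
    calc (h.length : ℝ) * g k 0 = ∑ v ∈ Icc 1 h.length, g k 0 := by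
          rw [sum_const, Nat.card_Icc, nsmul_eq_mul]; simp
      _ ≤ _ := sum_le_sum fun v _ => g_zero_le hk _
  refine (N_mul_g hk).trans (le_trans ?_ h1)
  refine mul_le_mul_of_nonneg_right ?_ (g_pos k 0).le
  exact_mod_cast hl

theorem Vs_ge_S {k : ℕ} (hk : 3 ≤ k) (h : List ℕ) : S k h ≤ Vs k h := by
  unfold Vs
  have h1 := S_nonneg k h
  have h2 := (g_pos k 0).le
  have h3 := EE_ge k
  have h4 := rinv_ge hk
  have h5 := RR_nonneg k
  have h6 : 1 ≤ (rho k)⁻¹ ^ (b k - h.count 0) := one_le_pow₀ h4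
  have h7 : 0 ≤ ((b k - h.count 0 : ℕ) : ℝ) * g k 0 := by positivity
  have h8 : S k h ≤ (S k h + ((b k - h.count 0 : ℕ) : ℝ) * g k 0) * (rho k)⁻¹ ^ (b k - h.count 0) := by
    calc S k h ≤ S k h + ((b k - h.count 0 : ℕ) : ℝ) * g k 0 := by linarith
      _ ≤ _ := le_mul_of_one_le_right (by positivity) h6
  have h9 : S k h ≤ EE k * ((S k h + ((b k - h.count 0 : ℕ) : ℝ) * g k 0) * (rho k)⁻¹ ^ (b k - h.count 0)) :=
    h8.trans (le_mul_of_one_le_left (h1.trans h8) h3)
  linarith

/-- failing of the conditions forces a large value of `S` -/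
theorem S_ge_of_not_cond {h : List ℕ} (hk : 3 ≤ ph (h.count 0)) (hbig : ∀ u, h.length < u → h.count u = 0)
    (hC : ¬ Cond h) : 1 ≤ S (ph (h.count 0)) h := by
  unfold Cond at hC
  by_cases h1 : ∀ u, 1 ≤ u → h.count u < b (ph (h.count 0) - 1)
  · have h2 : ¬ (h.count 0 < b (ph (h.count 0)) → h.length ≤ N (ph (h.count 0))) := fun h2 => hC ⟨h1, h2⟩
    push Not at h2
    exact S_ge_one_of_length hk h2.2
  · push Not at h1
    obtain ⟨u, hu1, hu2⟩ := h1
    refine S_ge_one_of_count hu1 ?_ hu2
    by_contra hc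
    rw [hbig u (by omega)] at hu2
    have := a_lt_b (ph (h.count 0) - 1)
    omega

/-- transition from slow block `k` to fast block `k` -/
theorem Vf_le_Vs {k : ℕ} (hk : 3 ≤ k) {h : List ℕ} (hd : h.count 0 = b k)
    (hc : ∀ u, 1 ≤ u → h.count u < b (k-1)) : Vf k h ≤ EE k * S k h + RR k := by
  unfold Vf
  have hE := EE_pos (k+1)
  have hr : 0 ≤ (rho (k+1))⁻¹ := by have := rinv_ge (k := k+1) (by omega); linarith
  have h1 : EE (k+1) * (rho (k+1))⁻¹ ^ (J (k+1)) * S (k+1) h ≤ EE k * S k h := by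
    unfold S
    rw [mul_sum, mul_sum]
    refine sum_le_sum fun v hv => ?_
    rw [mem_Icc] at hv
    exact g_trans hk (hc v hv.1).le
  have h2 := reserve hk
  have e : a (k+1) - h.count 0 = K k := by
    rw [hd, a_succ]; omega
  rw [e]
  rw [mul_add]
  linarith

theorem Good.big' {h : List ℕ} (hG : Good h) (v : ℕ) (hv : v ≤ h.length) :
    ∀ u, (v :: h).length < u → (v :: h).count u = 0 := by
  intro u hu
  rw [List.length_cons] at hu
  rw [count_cons', hG.count_big u (by omega), if_neg (by omega)]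

/-- the supermartingale property, slow blocks -/
theorem Pop_slow {h : List ℕ} (hG : Good h) {k : ℕ} (hkd : ph (h.count 0) = k) (hd : h.count 0 < b k) :
    Pop FF h ≤ Vs k h := by
  classical
  have hk4 : 4 ≤ k := hkd ▸ hG.ph_ge
  have hk : 3 ≤ k := by omega
  have hak : a k ≤ h.count 0 := hkd ▸ a_ph_le (h.count 0)
  have hC := hG.cond
  have hc1 : ∀ u, 1 ≤ u → h.count u < b (k-1) := by have := hC.1; rw [hkd] at this; exact this
  have hcnt : h.count (h.length + 1) = 0 := hG.count_big _ (by omega)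
  set E := EE k with hE
  set S0 := S k h with hS0
  set m := b k - h.count 0 with hm
  set r := (rho k)⁻¹ with hr
  set g0 := g k 0 with hg0
  have hmpos : 1 ≤ m := by omega
  have hEpos : 0 < E := EE_pos k
  have hg0pos : 0 < g0 := g_pos k 0
  have hr1 : 1 ≤ r := rinv_ge hk
  have hS0n : 0 ≤ S0 := S_nonneg k h
  have hrhopos := rho_pos hk
  have hrrho : r * rho k = 1 := inv_mul_cancel₀ hrhopos.ne'
  -- bound for v = 0
  have hW0 : FF (0 :: h) ≤ E * ((S0 + m * g0) * (r^m * rho k)) + RR k := by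
    have hrm : r^m * rho k = r^(m-1) := by
      have : m = (m-1)+1 := by omega
      conv_lhs => rw [this, pow_succ, mul_assoc, hrrho, mul_one]
    rw [hrm]
    have hS1 : S k (0 :: h) = S0 + g0 := S_cons_zero k h hcnt
    have hcnt0 : (0 :: h).count 0 = h.count 0 + 1 := by rw [count_cons', if_pos rfl]
    rcases Nat.lt_or_ge (h.count 0 + 1) (b k) with hlt | hge
    · have hph : ph ((0 :: h).count 0) = k := by
        rw [hcnt0]
        exact ph_eq (by omega) (hlt.trans (b_lt_a k))
      have hVeq : Vs k (0 :: h) = E * ((S0 + m * g0) * r^(m-1)) + RR k := by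
        unfold Vs
        rw [hcnt0, hS1]
        have e : b k - (h.count 0 + 1) = m - 1 := by omega
        have e2 : (m : ℝ) = ((m - 1 : ℕ) : ℝ) + 1 := by
          have : m = (m-1)+1 := by omega
          exact_mod_cast this
        rw [e, e2]
        ring
      rw [← hVeq]
      unfold FF
      split_ifs with hgood
      · unfold V
        rw [hph, hcnt0, if_pos hlt]
      · have hnc : ¬ Cond (0 :: h) := fun hc => hgood (Good.step h 0 hG (Nat.zero_le _) (fun _ => rfl) hc)
        have := S_ge_of_not_cond (h := 0 :: h) (by rw [hph]; exact hk) (hG.big' 0 (Nat.zero_le _)) hnc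
        rw [hph] at this
        exact this.trans (Vs_ge_S hk _)
    · have hd1 : h.count 0 + 1 = b k := by omega
      have hm1 : m = 1 := by omega
      have hcc : ∀ u, 1 ≤ u → (0 :: h).count u < b (k-1) := by
        intro u hu
        rw [count_cons', if_neg (by omega)]
        exact hc1 u hu
      have hph : ph ((0 :: h).count 0) = k := by
        rw [hcnt0, hd1]
        exact ph_eq (a_lt_b k).le (b_lt_a k)
      have hcond : Cond (0 :: h) := by
        unfold Cond
        rw [hph]
        refine ⟨hcc, fun hlt => ?_⟩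
        rw [hcnt0, hd1] at hlt
        exact absurd hlt (lt_irrefl _)
      have hgood : Good (0 :: h) := Good.step h 0 hG (Nat.zero_le _) (fun _ => rfl) hcond
      unfold FF
      rw [if_pos hgood]
      unfold V
      rw [hph, hcnt0, hd1, if_neg (lt_irrefl _)]
      refine (Vf_le_Vs hk (h := 0 :: h) (by rw [hcnt0, hd1]) hcc).trans ?_
      rw [hS1, hm1]
      simp only [Nat.cast_one, one_mul, Nat.sub_self, pow_zero, mul_one]
      exact le_rfl
  -- bound for v ≥ 1
  have hWv : ∀ v ∈ Icc 1 h.length, FF (v :: h) ≤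
      E * ((S0 + (g k (h.count v + 1) - g k (h.count v)) + g0 + m * g0) * r^m) + RR k := by
    intro v hv
    rw [mem_Icc] at hv
    have hS1 := S_cons k h hv.1 hv.2 hcnt
    have hcnt0 : (v :: h).count 0 = h.count 0 := by rw [count_cons', if_neg (by omega)]; simp
    have hph : ph ((v :: h).count 0) = k := by rw [hcnt0, hkd]
    have hVeq : Vs k (v :: h) = E * ((S0 + (g k (h.count v + 1) - g k (h.count v)) + g0 + m * g0) * r^m) + RR k := by
      unfold Vs
      rw [hcnt0, hS1]
    rw [← hVeq]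
    unfold FF
    split_ifs with hgood
    · unfold V
      rw [hph, hcnt0, if_pos hd]
    · have hnc : ¬ Cond (v :: h) := fun hc => hgood (Good.step h v hG hv.2 (fun hh => by
        rw [hkd] at hh; omega) hc)
      have := S_ge_of_not_cond (h := v :: h) (by rw [hph]; exact hk) (hG.big' v hv.2) hnc
      rw [hph] at this
      exact this.trans (Vs_ge_S hk _)
  -- combine
  have hZ := Z_pos h
  have hp0 : p h 0 = J k / Z h := by
    unfold p
    rw [f_slow hak hd]
  have hsum : p h 0 + ∑ v ∈ Icc 1 h.length, p h v = 1 := by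
    rw [← range_split, sum_p]
  have hgen : ∑ v ∈ Icc 1 h.length, p h v * (g k (h.count v + 1) - g k (h.count v) + g0) ≤ th k * S0 / Z h := by
    have : th k * S0 / Z h = ∑ v ∈ Icc 1 h.length, th k * g k (h.count v) / Z h := by
      rw [hS0]; unfold S
      rw [mul_sum, sum_div]
    rw [this]
    refine sum_le_sum fun v hv => ?_
    rw [mem_Icc] at hv
    unfold p
    rw [div_mul_eq_mul_div]
    exact div_le_div_of_nonneg_right (g_super hk (hc1 v hv.1)) hZ.le
  have hrm : 0 < r^m := by positivity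
  have hstep : Pop FF h ≤ p h 0 * (E * ((S0 + m * g0) * (r^m * rho k)) + RR k) +
      ∑ v ∈ Icc 1 h.length, p h v * (E * ((S0 + (g k (h.count v + 1) - g k (h.count v)) + g0 + m * g0) * r^m) + RR k) := by
    unfold Pop
    rw [range_split]
    refine add_le_add (mul_le_mul_of_nonneg_left hW0 (p_nonneg h 0)) ?_
    exact sum_le_sum fun v hv => mul_le_mul_of_nonneg_left (hWv v hv) (p_nonneg h v)
  refine hstep.trans ?_
  have hexp : ∑ v ∈ Icc 1 h.length, p h v * (E * ((S0 + (g k (h.count v + 1) - g k (h.count v)) + g0 + m * g0) * r^m) + RR k)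
      = E * r^m * (∑ v ∈ Icc 1 h.length, p h v * (g k (h.count v + 1) - g k (h.count v) + g0)) +
        (E * r^m * (S0 + m * g0) + RR k) * ∑ v ∈ Icc 1 h.length, p h v := by
    rw [mul_sum, mul_sum, ← sum_add_distrib]
    exact sum_congr rfl fun v _ => by ring
  rw [hexp]
  have hP1 : ∑ v ∈ Icc 1 h.length, p h v = 1 - p h 0 := by linarith
  rw [hP1]
  have hErm : 0 < E * r^m := by positivity
  have h5 := mul_le_mul_of_nonneg_left hgen hErm.le
  have hrhoJ : p h 0 * rho k = p h 0 - th k / Z h := by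
    rw [hp0, div_mul_eq_mul_div, rho_J, sub_div]
  have hVs : Vs k h = E * r^m * (S0 + m * g0) + RR k := by
    unfold Vs
    ring
  rw [hVs]
  have e6 : p h 0 * (E * ((S0 + m * g0) * (r^m * rho k)) + RR k) =
      E * r^m * (S0 + m * g0) * (p h 0 * rho k) + RR k * p h 0 := by ring
  rw [e6, hrhoJ]
  have h7 : E * r^m * (th k * S0 / Z h) ≤ E * r^m * (S0 + m * g0) * (th k / Z h) := by
    have : E * r^m * (th k * S0 / Z h) = E * r^m * S0 * (th k / Z h) := by ring
    rw [this]
    have h8 : 0 ≤ th k / Z h := div_nonneg th_pos.le hZ.le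
    refine mul_le_mul_of_nonneg_right ?_ h8
    refine mul_le_mul_of_nonneg_left ?_ hErm.le
    have : 0 ≤ (m:ℝ) * g0 := by positivity
    linarith
  nlinarith [h5, h7]

theorem FF_nonneg (h : List ℕ) : 0 ≤ FF h := by
  classical
  unfold FF V
  split_ifs with h1 h2
  · exact Vs_nonneg (by have := h1.ph_ge; omega) _
  · exact Vf_nonneg (by have := h1.ph_ge; omega) _
  · exact zero_le_one

/-- the supermartingale property, fast blocks -/
theorem Pop_fast {h : List ℕ} (hG : Good h) {k : ℕ} (hkd : ph (h.count 0) = k) (hd : b k ≤ h.count 0) :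
    Pop FF h ≤ Vf k h := by
  classical
  have hk4 : 4 ≤ k := hkd ▸ hG.ph_ge
  have hk : 3 ≤ k := by omega
  have hda : h.count 0 < a (k+1) := hkd ▸ lt_a_ph (h.count 0)
  have hC := hG.cond
  have hc1 : ∀ u, 1 ≤ u → h.count u < b (k-1) := by have := hC.1; rw [hkd] at this; exact this
  have hcnt : h.count (h.length + 1) = 0 := hG.count_big _ (by omega)
  have hZ := Z_pos h
  have hcnt0 : (0 :: h).count 0 = h.count 0 + 1 := by rw [count_cons', if_pos rfl]
  have hS1 : S (k+1) (0 :: h) = S (k+1) h + g (k+1) 0 := S_cons_zero (k+1) h hcnt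
  -- total probability of the others
  have hothers : ∑ v ∈ Icc 1 h.length, p h v ≤ tau k := by
    unfold p
    rw [← sum_div]
    have hnum : ∑ v ∈ Icc 1 h.length, f (h.count v) ≤ 2 * K k * H (k-2) := by
      have h1 : ∑ v ∈ Icc 1 h.length, f (h.count v) ≤ ∑ v ∈ Icc 1 h.length, (H (k-2) : ℝ) := by
        refine sum_le_sum fun v hv => ?_
        rw [mem_Icc] at hv
        refine f_le (j := k-2) ?_
        have e : k - 2 + 1 = k - 1 := by omega
        rw [e]
        exact hc1 v hv.1
      refine h1.trans ?_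
      rw [sum_const, Nat.card_Icc, nsmul_eq_mul]
      refine mul_le_mul_of_nonneg_right ?_ (by positivity)
      have hlen : h.length ≤ 2 * K k := by
        have h2 := (hG.fast_inv k hd hda).1
        have h3 := N_le_K hk
        rw [a_succ] at hda
        omega
      have e : h.length + 1 - 1 = h.length := by omega
      rw [e]
      exact_mod_cast hlen
    have hden : (H k : ℝ) ≤ Z h := by
      unfold Z
      have h2 : f (h.count 0) = H k := f_fast hd hda
      rw [← h2]
      exact single_le_sum (f := fun v => f (h.count v)) (fun v _ => (f_pos _).le) (by simp)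
    unfold tau
    exact div_le_div₀ (by positivity) hnum (by exact_mod_cast H_pos k) hden
  -- the root pick
  have hroot : FF (0 :: h) ≤ Vf k h - tau k := by
    have hVeq : Vf k h - tau k = EE (k+1) * (rho (k+1))⁻¹ ^ (J (k+1)) *
      (S (k+1) (0 :: h) + (((a (k+1) - (h.count 0 + 1) : ℕ) : ℝ) + J (k+1)) * g (k+1) 0)
      + ((a (k+1) - (h.count 0 + 1) : ℕ) : ℝ) * tau k + RR (k+1) := by
      unfold Vf
      rw [hS1]
      have e2 : ((a (k+1) - h.count 0 : ℕ) : ℝ) = ((a (k+1) - (h.count 0 + 1) : ℕ) : ℝ) + 1 := by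
        have : a (k+1) - h.count 0 = (a (k+1) - (h.count 0 + 1)) + 1 := by omega
        exact_mod_cast this
      rw [e2]
      ring
    rw [hVeq]
    rcases Nat.lt_or_ge (h.count 0 + 1) (a (k+1)) with hlt | hge
    · have hph : ph ((0 :: h).count 0) = k := by
        rw [hcnt0]
        exact ph_eq (by have := a_lt_b k; omega) hlt
      have hcond : Cond (0 :: h) := by
        unfold Cond
        rw [hph, hcnt0]
        refine ⟨fun u hu => ?_, fun hh => by omega⟩
        rw [count_cons', if_neg (by omega)]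
        exact hc1 u hu
      have hgood : Good (0 :: h) := Good.step h 0 hG (Nat.zero_le _) (fun _ => rfl) hcond
      unfold FF
      rw [if_pos hgood]
      unfold V
      rw [hph, hcnt0, if_neg (by omega)]
      unfold Vf
      rw [hcnt0]
    · have hd1 : h.count 0 + 1 = a (k+1) := by omega
      have hph : ph ((0 :: h).count 0) = k + 1 := by
        rw [hcnt0, hd1]
        exact ph_eq le_rfl (a_strictMono (Nat.lt_succ_self _))
      have hVs : Vs (k+1) (0 :: h) = EE (k+1) * (rho (k+1))⁻¹ ^ (J (k+1)) *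
          (S (k+1) (0 :: h) + (((a (k+1) - (h.count 0 + 1) : ℕ) : ℝ) + J (k+1)) * g (k+1) 0)
          + ((a (k+1) - (h.count 0 + 1) : ℕ) : ℝ) * tau k + RR (k+1) := by
        unfold Vs
        rw [hcnt0, hd1]
        have e1 : b (k+1) - a (k+1) = J (k+1) := by unfold b; omega
        rw [e1, Nat.sub_self]
        push_cast
        ring
      rw [← hVs]
      unfold FF
      split_ifs with hgood
      · unfold V
        rw [hph, hcnt0, hd1, if_pos (a_lt_b _)]
      · have hnc : ¬ Cond (0 :: h) := fun hc => hgood (Good.step h 0 hG (Nat.zero_le _) (fun _ => rfl) hc)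
        have := S_ge_of_not_cond (h := 0 :: h) (by rw [hph]; omega) (hG.big' 0 (Nat.zero_le _)) hnc
        rw [hph] at this
        exact this.trans (Vs_ge_S (by omega) _)
  have hsum : p h 0 + ∑ v ∈ Icc 1 h.length, p h v = 1 := by
    rw [← range_split, sum_p]
  have hFF1 : ∀ v ∈ Icc 1 h.length, FF (v :: h) = 1 := by
    intro v hv
    rw [mem_Icc] at hv
    unfold FF
    rw [if_neg]
    intro hgood
    have := (hgood.inv hG.length).2.2.1 (by rw [hkd]; exact hd)
    omega
  have hroot0 : 0 ≤ Vf k h - tau k := (FF_nonneg _).trans hroot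
  unfold Pop
  rw [range_split, sum_congr rfl (fun v hv => by rw [hFF1 v hv, mul_one])]
  have hp0 : p h 0 ≤ 1 := by
    have : 0 ≤ ∑ v ∈ Icc 1 h.length, p h v := sum_nonneg fun v _ => p_nonneg h v
    linarith
  have h8 : p h 0 * FF (0 :: h) ≤ Vf k h - tau k := by
    calc p h 0 * FF (0 :: h) ≤ p h 0 * (Vf k h - tau k) := mul_le_mul_of_nonneg_left hroot (p_nonneg h 0)
      _ ≤ 1 * (Vf k h - tau k) := mul_le_mul_of_nonneg_right hp0 hroot0
      _ = _ := one_mul _
  linarith

/-- the supermartingale property -/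
theorem Pop_FF (h : List ℕ) (hl : a k0 ≤ h.length) : Pop FF h ≤ FF h := by
  classical
  by_cases hG : Good h
  · have e : FF h = V h := by unfold FF; rw [if_pos hG]
    rw [e]
    unfold V
    split_ifs with h1
    · exact Pop_slow hG rfl h1
    · exact Pop_fast hG rfl (by omega)
  · have e : FF h = 1 := by unfold FF; rw [if_neg hG]
    rw [e, ← Pop_const 1 h]
    refine Pop_mono fun v hv => ?_
    unfold FF
    rw [if_neg fun hg => hG (hg.inv hl).1]

theorem iter_FF (n : ℕ) (h : List ℕ) (hl : a k0 ≤ h.length) : Pop^[n] FF h ≤ FF h := by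
  induction n generalizing h with
  | zero => exact le_rfl
  | succ n ih =>
    rw [Function.iterate_succ_apply']
    exact (Pop_mono fun v _ => ih (v :: h) (by rw [List.length_cons]; omega)).trans (Pop_FF h hl)

open Classical in
/-- the probability of ever leaving the good set is small -/
theorem bad_le (n : ℕ) : Pop^[n] (fun h => if Good h then (0:ℝ) else 1) base ≤ FF base := by
  refine (iter_mono (G := FF) (fun x => ?_) n base).trans (iter_FF n base base_length.ge)
  by_cases hG : Good x
  · simp only [hG, if_true]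
    exact FF_nonneg x
  · unfold FF
    simp only [hG, if_false]
    exact le_rfl

theorem FF_base : FF base ≤ 1/8 := by
  classical
  have hk0 : 4 ≤ k0 := k0_eq.ge
  unfold FF
  rw [if_pos Good.base]
  have hph : ph (base.count 0) = k0 := by
    rw [base_count_zero]
    exact ph_eq le_rfl (a_strictMono (Nat.lt_succ_self _))
  unfold V
  rw [hph, base_count_zero, if_pos (a_lt_b _)]
  unfold Vs
  have hS : S k0 base = a k0 * g k0 0 := by
    unfold S
    rw [sum_congr rfl (g := fun _ => g k0 0), sum_const, Nat.card_Icc, base_length, nsmul_eq_mul]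
    · simp
    · intro v hv
      rw [mem_Icc] at hv
      rw [base_count hv.1]
  have e1 : b k0 - a k0 = J k0 := by unfold b; omega
  rw [hS, base_count_zero, e1]
  obtain ⟨k, hk⟩ : ∃ k, k0 = k + 1 := ⟨k0 - 1, by omega⟩
  have hk3 : 3 ≤ k := by omega
  rw [hk]
  have h1 := g_newborn hk3
  have h2 : (a (k+1) : ℝ) ≤ 3 * 2^(J (k-1)/2) := by
    rw [a_succ]
    have h3 : a k ≤ 2^(J (k-1)/2) := by
      refine (a_le (by omega)).trans (Nat.pow_le_pow_right (by norm_num) ?_)
      have hJ1 : J (k-1) = (J (k-2))^3 := by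
        have : k - 1 = (k-2) + 1 := by omega
        rw [this, J_succ]
      have hx := J_ge128 (k-2)
      have h3 : 2 * J (k-2) ≤ J (k-1) := by
        rw [hJ1]
        calc 2 * J (k-2) ≤ (J (k-2))^2 * J (k-2) := Nat.mul_le_mul_right _ (by nlinarith)
          _ = _ := by ring
      omega
    have h4 : J k ≤ 2^(J (k-1)/2) := by
      have : k = (k-1)+1 := by omega
      conv_lhs => rw [this]
      exact J_succ_le _
    have h5 : K k = 2^(J (k-1)/2) := rfl
    have hb : b k = a k + J k := rfl
    have h6 : b k + K k ≤ 3 * 2^(J (k-1)/2) := by omega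
    exact_mod_cast h6
  have hJ9 : (J (k+1) : ℝ) ≤ 2^(J (k-1)/2) := by
    have h2 : J (k+1) = (J (k-1))^9 := by
      have hk1 : k - 1 + 2 = k + 1 := by omega
      rw [← hk1, J_succ, J_succ]; ring
    rw [h2]
    exact_mod_cast J_pow9 (k-1)
  have hR : RR (k+1) ≤ 16 * (1/2)^(J (k-1)/2) := by
    unfold RR
    have e : k + 1 - 1 = k := by omega
    rw [e]
    refine mul_le_mul_of_nonneg_left ?_ (by norm_num)
    refine pow_le_pow_of_le_one (by norm_num) (by norm_num) ?_
    exact Nat.div_le_div_right (J_mono (by omega))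
  have hy : (1/2:ℝ)^(J (k-1)/2) ≤ (1/2)^8 := by
    refine pow_le_pow_of_le_one (by norm_num) (by norm_num) ?_
    have := J_ge128 (k-1)
    omega
  have hmain : EE (k+1) * (((a (k+1) : ℝ) * g (k+1) 0 + (J (k+1) : ℝ) * g (k+1) 0) * (rho (k+1))⁻¹ ^ (J (k+1))) ≤
      16 * (1/2)^(J (k-1)/2) := by
    calc EE (k+1) * (((a (k+1) : ℝ) * g (k+1) 0 + (J (k+1) : ℝ) * g (k+1) 0) * (rho (k+1))⁻¹ ^ (J (k+1)))
        = (EE (k+1) * (rho (k+1))⁻¹ ^ (J (k+1)) * g (k+1) 0) * ((a (k+1) : ℝ) + J (k+1)) := by ring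
      _ ≤ (4 * (1/2)^(J (k-1))) * ((a (k+1) : ℝ) + J (k+1)) := mul_le_mul_of_nonneg_right h1 (by positivity)
      _ ≤ (4 * (1/2)^(J (k-1))) * (4 * 2^(J (k-1)/2)) := by
          refine mul_le_mul_of_nonneg_left ?_ (by positivity)
          linarith
      _ = 16 * ((1/2)^(J (k-1)) * 2^(J (k-1)/2)) := by ring
      _ = _ := by rw [half_half]
  norm_num at hy
  linarith

end Pool.Agent.R953.FR
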