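import Pool.Agent.R953.FR.P5

/-!
# Fitness recursive trees with a bursting fitness: first moments in a window
-/

set_option autoImplicit false
open Finset

namespace Pool.Agent.R953.FR

open Classical in
noncomputable def ind (F : List ℕ → ℝ) (h : List ℕ) : ℝ := if Good h then F h else 0

/-- expectation on the good set, `n` steps after the start -/
noncomputable def Ex (n : ℕ) (F : List ℕ → ℝ) : ℝ := Pop^[n] (ind F) base

theorem iter_mono' {F G : List ℕ → ℝ} (n : ℕ) (h : List ℕ)
    (hFG : ∀ x : List ℕ, x.length = h.length + n → F x ≤ G x) :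
    Pop^[n] F h ≤ Pop^[n] G h := by
  induction n generalizing h with
  | zero => exact hFG h rfl
  | succ n ih =>
    rw [Function.iterate_succ_apply', Function.iterate_succ_apply']
    refine Pop_mono fun v _ => ih (v :: h) fun x hx => hFG x ?_
    rw [List.length_cons] at hx
    omega

theorem iter_add (F G : List ℕ → ℝ) (n : ℕ) (h : List ℕ) :
    Pop^[n] (fun x => F x + G x) h = Pop^[n] F h + Pop^[n] G h := by
  induction n generalizing h with
  | zero => rfl
  | succ n ih =>
    rw [Function.iterate_succ_apply', Function.iterate_succ_apply', Function.iterate_succ_apply', ← Pop_add]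
    congr 1
    funext x
    exact ih x

theorem Pop_smul (c : ℝ) (F : List ℕ → ℝ) (h : List ℕ) : Pop (fun x => c * F x) h = c * Pop F h := by
  unfold Pop
  rw [mul_sum]
  exact sum_congr rfl fun v _ => by ring

theorem iter_smul (c : ℝ) (F : List ℕ → ℝ) (n : ℕ) (h : List ℕ) :
    Pop^[n] (fun x => c * F x) h = c * Pop^[n] F h := by
  induction n generalizing h with
  | zero => rfl
  | succ n ih =>
    rw [Function.iterate_succ_apply', Function.iterate_succ_apply', ← Pop_smul]
    congr 1
    funext x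
    exact ih x

theorem iter_const (c : ℝ) (n : ℕ) (h : List ℕ) : Pop^[n] (fun _ => c) h = c := by
  induction n generalizing h with
  | zero => rfl
  | succ n ih =>
    rw [Function.iterate_succ_apply']
    have : Pop^[n] (fun _ => c) = fun _ => c := funext fun x => ih x
    rw [this, Pop_const]

theorem iter_nonneg {F : List ℕ → ℝ} (hF : ∀ x, 0 ≤ F x) (n : ℕ) (h : List ℕ) : 0 ≤ Pop^[n] F h := by
  rw [← iter_const 0 n h]
  exact iter_mono hF n h

theorem Ex_mono {F G : List ℕ → ℝ} {n : ℕ} (hFG : ∀ x, Good x → x.length = a k0 + n → F x ≤ G x) :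
    Ex n F ≤ Ex n G := by
  classical
  unfold Ex
  refine iter_mono' n base fun x hx => ?_
  rw [base_length] at hx
  unfold ind
  split_ifs with h
  · exact hFG x h hx
  · exact le_rfl

theorem Ex_add (F G : List ℕ → ℝ) (n : ℕ) : Ex n (fun x => F x + G x) = Ex n F + Ex n G := by
  classical
  have e : ind (fun x => F x + G x) = fun x => ind F x + ind G x := by
    funext x
    unfold ind
    split_ifs <;> simp
  unfold Ex
  rw [← iter_add, e]

theorem Ex_smul (c : ℝ) (F : List ℕ → ℝ) (n : ℕ) : Ex n (fun x => c * F x) = c * Ex n F := by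
  classical
  have e : ind (fun x => c * F x) = fun x => c * ind F x := by
    funext x
    unfold ind
    split_ifs <;> simp
  unfold Ex
  rw [← iter_smul, e]

theorem Ex_nonneg {F : List ℕ → ℝ} (hF : ∀ x, 0 ≤ F x) (n : ℕ) : 0 ≤ Ex n F := by
  classical
  refine iter_nonneg (fun x => ?_) n base
  unfold ind
  split_ifs
  · exact hF x
  · exact le_rfl

theorem Ex_const_le {c : ℝ} (hc : 0 ≤ c) (n : ℕ) : Ex n (fun _ => c) ≤ c := by
  classical
  unfold Ex
  conv_rhs => rw [← iter_const c n base]
  refine iter_mono (fun x => ?_) n base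
  unfold ind
  split_ifs
  · exact le_rfl
  · exact hc

theorem Ex_sum {ι : Type} (s : Finset ι) (F : ι → List ℕ → ℝ) (n : ℕ) :
    Ex n (fun x => ∑ i ∈ s, F i x) = ∑ i ∈ s, Ex n (F i) := by
  classical
  induction s using Finset.induction_on with
  | empty =>
    simp only [sum_empty]
    have h1 := Ex_smul 0 (fun _ => 1) n
    simp only [zero_mul] at h1
    exact h1
  | insert i s hi ih =>
    rw [sum_insert hi, ← ih, ← Ex_add]
    congr 1
    funext x
    rw [sum_insert hi]

theorem Ex_succ_le {F G : List ℕ → ℝ} (hF : ∀ x, 0 ≤ F x) {n : ℕ}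
    (hFG : ∀ x, Good x → x.length = a k0 + n → Pop F x ≤ G x) : Ex (n+1) F ≤ Ex n G := by
  classical
  unfold Ex
  rw [Function.iterate_succ_apply]
  refine iter_mono' n base fun x hx => ?_
  rw [base_length] at hx
  by_cases hG : Good x
  · have e : ind G x = G x := by unfold ind; rw [if_pos hG]
    rw [e]
    refine le_trans (Pop_mono fun v _ => ?_) (hFG x hG hx)
    unfold ind
    split_ifs
    · exact le_rfl
    · exact hF _
  · have e : ind G x = 0 := by unfold ind; rw [if_neg hG]
    rw [e]
    unfold Pop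
    refine le_of_eq (sum_eq_zero fun v _ => ?_)
    have : ¬ Good (v :: x) := fun hg => hG (hg.inv (by omega)).1
    unfold ind
    rw [if_neg this, mul_zero]

theorem Z_ge (h : List ℕ) : 128 * ((h.length : ℝ) + 1) ≤ Z h := by
  unfold Z
  calc 128 * ((h.length : ℝ) + 1) = ∑ v ∈ range (h.length + 1), (128:ℝ) := by
        rw [sum_const, card_range, nsmul_eq_mul]; push_cast; ring
    _ ≤ _ := sum_le_sum fun v _ => f_ge _

theorem K_mono' {j k : ℕ} (hj : 1 ≤ j) (hjk : j < k) : 2 * K j < K k := by
  unfold K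
  have h1 : J (j-1) / 2 + 1 < J (k-1) / 2 := by
    have h2 : J (j-1+1) ≤ J (k-1) := J_mono (by omega)
    rw [J_succ] at h2
    have h3 := J_ge128 (j-1)
    have h4 : 4 * J (j-1) ≤ (J (j-1))^3 := by
      calc 4 * J (j-1) ≤ (J (j-1))^2 * J (j-1) := Nat.mul_le_mul_right _ (by nlinarith)
        _ = _ := by ring
    omega
  calc 2 * 2 ^ (J (j-1)/2) = 2^(J (j-1)/2 + 1) := by ring
    _ < _ := Nat.pow_lt_pow_right (by norm_num) h1

theorem N_mono {j k : ℕ} (h : j ≤ k) : N j ≤ N k := by
  unfold N
  refine Nat.pow_le_pow_right (by norm_num) ?_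
  exact Nat.mul_le_mul (Nat.mul_le_mul_left _ h) (J_mono (by omega))

/-- the situation at time `K (k-1)` -/
theorem at_M {k : ℕ} (hk : 6 ≤ k) {h : List ℕ} (hG : Good h) (hl : h.length = K (k-1)) :
    h.count 0 < a k ∧ ∀ u, N (k-1) + 1 ≤ u → h.count u = 0 := by
  have hcl : h.count 0 ≤ h.length := List.count_le_length
  have hak : a k = b (k-1) + K (k-1) := by
    have : k = (k-1)+1 := by omega
    conv_lhs => rw [this, a_succ]
  have hbpos : 0 < b (k-1) := lt_of_le_of_lt (Nat.zero_le _) (a_lt_b _)
  have h1 : h.count 0 < a k := by omega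
  have hj4 := hG.ph_ge
  set j := ph (h.count 0) with hj
  have hj1 := a_ph_le (h.count 0)
  have hj2 := lt_a_ph (h.count 0)
  rw [← hj] at hj1 hj2
  have hjk : j < k := a_strictMono.lt_iff_lt.mp (lt_of_le_of_lt hj1 h1)
  have hNK := N_le_K (k := k-1) (by omega)
  rcases Nat.lt_or_ge (h.count 0) (b j) with h2 | h2
  · exfalso
    have h3 := hG.cond.2 (by rw [← hj]; exact h2)
    rw [← hj] at h3
    have := N_mono (show j ≤ k-1 by omega)
    omega
  · obtain ⟨i1, i2⟩ := hG.fast_inv j h2 hj2
    rcases Nat.lt_or_ge j (k-1) with h3 | h3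
    · exfalso
      have h4 := K_mono' (show 1 ≤ j by omega) h3
      have h5 := N_le_K (k := j) (by omega)
      rw [a_succ] at hj2
      omega
    · have h4 : j = k - 1 := by omega
      rw [h4] at i2
      exact ⟨h1, i2⟩

/-! ### the root -/

noncomputable def Rt (k : ℕ) (h : List ℕ) : ℝ := ((min (h.count 0 - a k) (J k) : ℕ) : ℝ)

theorem Rt_nonneg (k : ℕ) (h : List ℕ) : 0 ≤ Rt k h := Nat.cast_nonneg _

theorem Pop_Rt {k M : ℕ} (hM : 0 < M) {h : List ℕ} (hl : M ≤ h.length) :
    Pop (Rt k) h ≤ Rt k h + J k / (128 * M) := by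
  have hZ := Z_pos h
  have hMr : (0:ℝ) < M := by exact_mod_cast hM
  have hx : (0:ℝ) ≤ J k / (128 * M) := by positivity
  unfold Pop
  rw [range_split]
  have h1 : ∑ v ∈ Icc 1 h.length, p h v * Rt k (v :: h) = (∑ v ∈ Icc 1 h.length, p h v) * Rt k h := by
    rw [sum_mul]
    refine sum_congr rfl fun v hv => ?_
    rw [mem_Icc] at hv
    unfold Rt
    rw [count_cons', if_neg (by omega), Nat.add_zero]
  have hsum : p h 0 + ∑ v ∈ Icc 1 h.length, p h v = 1 := by rw [← range_split, sum_p]
  rw [h1]
  have h2 : p h 0 * Rt k (0 :: h) ≤ p h 0 * Rt k h + J k / (128 * M) := by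
    unfold Rt
    rw [count_cons', if_pos rfl]
    by_cases hc : a k ≤ h.count 0 ∧ h.count 0 < b k
    · have hp : p h 0 ≤ J k / (128 * M) := by
        unfold p
        rw [f_slow hc.1 hc.2]
        refine div_le_div_of_nonneg_left (by positivity) (by positivity) ?_
        refine le_trans ?_ (Z_ge h)
        have : (M:ℝ) ≤ h.length := by exact_mod_cast hl
        linarith
      have e : (min (h.count 0 + 1 - a k) (J k) : ℕ) ≤ min (h.count 0 - a k) (J k) + 1 := by omega
      have e' : ((min (h.count 0 + 1 - a k) (J k) : ℕ) : ℝ) ≤ ((min (h.count 0 - a k) (J k) : ℕ) : ℝ) + 1 := by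
        exact_mod_cast e
      have hp0 := p_nonneg h 0
      calc p h 0 * ((min (h.count 0 + 1 - a k) (J k) : ℕ) : ℝ) ≤ p h 0 * (((min (h.count 0 - a k) (J k) : ℕ) : ℝ) + 1) :=
            mul_le_mul_of_nonneg_left e' hp0
        _ = p h 0 * ((min (h.count 0 - a k) (J k) : ℕ) : ℝ) + p h 0 := by ring
        _ ≤ _ := by linarith
    · have e : (min (h.count 0 + 1 - a k) (J k) : ℕ) = min (h.count 0 - a k) (J k) := by
        unfold b at hc
        rcases Nat.lt_or_ge (h.count 0) (a k) with h3 | h3
        · omega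
        · have : a k + J k ≤ h.count 0 := by
            by_contra hc2
            exact hc ⟨h3, by omega⟩
          omega
      rw [e]
      linarith
  have h3 : p h 0 * Rt k h + (∑ v ∈ Icc 1 h.length, p h v) * Rt k h = Rt k h := by
    rw [← add_mul, hsum, one_mul]
  linarith

/-! ### sums over the new vertices -/

/-- sum of a function of the degree over the vertices with index at least `s` -/
noncomputable def Sm (s : ℕ) (φ : ℕ → ℝ) (h : List ℕ) : ℝ := ∑ v ∈ Icc s h.length, φ (h.count v)

theorem Sm_nonneg {s : ℕ} {φ : ℕ → ℝ} (hφ : ∀ c, 0 ≤ φ c) (h : List ℕ) : 0 ≤ Sm s φ h :=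
  sum_nonneg fun _ _ => hφ _

theorem Sm_cons {s : ℕ} (φ : ℕ → ℝ) (h : List ℕ) (v : ℕ) (hv : v ≤ h.length)
    (hsl : s ≤ h.length) (hc : h.count (h.length + 1) = 0) :
    Sm s φ (v :: h) = Sm s φ h + (if s ≤ v then φ (h.count v + 1) - φ (h.count v) else 0) + φ 0 := by
  unfold Sm
  have hI : Icc s (h.length + 1) = insert (h.length + 1) (Icc s h.length) := by
    ext x
    simp only [mem_insert, mem_Icc]
    omega
  rw [List.length_cons, hI, sum_insert (by simp)]
  have e1 : φ ((v :: h).count (h.length + 1)) = φ 0 := by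
    rw [count_cons', if_neg (by omega), hc]
  have e2 : ∑ u ∈ Icc s h.length, φ ((v :: h).count u) =
      ∑ u ∈ Icc s h.length, φ (h.count u) + (if s ≤ v then φ (h.count v + 1) - φ (h.count v) else 0) := by
    have e3 : ∀ u ∈ Icc s h.length, φ ((v :: h).count u) =
        φ (h.count u) + if u = v then φ (h.count v + 1) - φ (h.count v) else 0 := by
      intro u _
      rw [count_cons']
      by_cases huv : u = v
      · subst huv
        simp
      · rw [if_neg huv, if_neg huv]
        simp
    rw [sum_congr rfl e3, sum_add_distrib, sum_ite_eq' (Icc s h.length) v]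
    congr 1
    by_cases hsv : s ≤ v
    · rw [if_pos (mem_Icc.mpr ⟨hsv, hv⟩), if_pos hsv]
    · rw [if_neg (fun hh => hsv (mem_Icc.mp hh).1), if_neg hsv]
  rw [e1, e2]
  ring

theorem Pop_Sm {s : ℕ} (φ ψ : ℕ → ℝ) {h : List ℕ} (hsl : s ≤ h.length)
    (hc : h.count (h.length + 1) = 0)
    (hstep : ∀ c, f c * (φ (c+1) - φ c) ≤ Z h * ψ c) :
    Pop (Sm s φ) h ≤ Sm s φ h + Sm s ψ h + φ 0 := by
  have hZ := Z_pos h
  unfold Pop
  have e1 : ∀ v ∈ range (h.length + 1), p h v * Sm s φ (v :: h) =
      p h v * (Sm s φ h + φ 0) + (if s ≤ v then p h v * (φ (h.count v + 1) - φ (h.count v)) else 0) := by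
    intro v hv
    rw [mem_range] at hv
    rw [Sm_cons φ h v (by omega) hsl hc]
    split_ifs <;> ring
  rw [sum_congr rfl e1, sum_add_distrib, ← sum_mul, sum_p, one_mul]
  have e2 : ∑ v ∈ range (h.length + 1), (if s ≤ v then p h v * (φ (h.count v + 1) - φ (h.count v)) else 0) ≤
      Sm s ψ h := by
    unfold Sm
    rw [← sum_filter]
    have e3 : (range (h.length + 1)).filter (fun v => s ≤ v) = Icc s h.length := by
      ext x
      simp only [mem_filter, mem_range, mem_Icc]
      omega
    rw [e3]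
    refine sum_le_sum fun v _ => ?_
    unfold p
    rw [div_mul_eq_mul_div, div_le_iff₀ hZ]
    have := hstep (h.count v)
    linarith
  linarith

end Pool.Agent.R953.FR
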