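import Pool.Agent.R953.FR.P6

/-!
# Fitness recursive trees with a bursting fitness: the leaf density drops
-/

set_option autoImplicit false
open Finset

namespace Pool.Agent.R953.FR

/-- length of the window -/
def L (k : ℕ) : ℕ := K (k-1) / 16

/-- first index of a new vertex -/
def s (k : ℕ) : ℕ := N (k-1) + 1

noncomputable def phi1 (c : ℕ) : ℝ := if c = 0 then 0 else 1
noncomputable def chi (c : ℕ) : ℝ := ((min (c-1) 127 : ℕ) : ℝ)
noncomputable def psi (j c : ℕ) : ℝ := 10 ^ (min (c - a j) (J j))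
noncomputable def w (j : ℕ) : ℝ := ((K j : ℝ) + J (j+1)) / 10 ^ (J j)
noncomputable def xx (k j : ℕ) : ℝ := 9 * J j / (128 * K (k-1))

theorem phi1_nonneg (c : ℕ) : 0 ≤ phi1 c := by unfold phi1; split_ifs <;> norm_num
theorem chi_nonneg (c : ℕ) : 0 ≤ chi c := Nat.cast_nonneg _
theorem psi_nonneg (j c : ℕ) : 0 ≤ psi j c := by unfold psi; positivity
theorem w_nonneg (j : ℕ) : 0 ≤ w j := by unfold w; positivity
theorem xx_nonneg (k j : ℕ) : 0 ≤ xx k j := by unfold xx; positivity

theorem Kr_pos (k : ℕ) : (0:ℝ) < K k := by exact_mod_cast K_pos k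

theorem Z_ge' {k : ℕ} {h : List ℕ} (hl : K (k-1) ≤ h.length) : 128 * (K (k-1) : ℝ) ≤ Z h := by
  refine le_trans ?_ (Z_ge h)
  have : (K (k-1) : ℝ) ≤ h.length := by exact_mod_cast hl
  linarith

theorem Pop_psi {k j : ℕ} {h : List ℕ} (hl : K (k-1) ≤ h.length) (hs : s k ≤ h.length)
    (hc : h.count (h.length + 1) = 0) :
    Pop (Sm (s k) (psi j)) h ≤ (1 + xx k j) * Sm (s k) (psi j) h + 1 := by
  have h1 := Pop_Sm (psi j) (fun c => xx k j * psi j c) hs hc ?_
  · have e1 : Sm (s k) (fun c => xx k j * psi j c) h = xx k j * Sm (s k) (psi j) h := by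
      unfold Sm; rw [mul_sum]
    have e2 : psi j 0 = 1 := by unfold psi; simp
    rw [e1, e2] at h1
    linarith
  · intro c
    have hZ := Z_ge' hl
    have hK := Kr_pos (k-1)
    have hZx : 9 * (J j : ℝ) ≤ Z h * xx k j := by
      unfold xx
      have : 128 * (K (k-1) : ℝ) * (9 * J j / (128 * K (k-1))) = 9 * J j := by field_simp
      calc 9 * (J j : ℝ) = 128 * (K (k-1) : ℝ) * (9 * J j / (128 * K (k-1))) := this.symm
        _ ≤ _ := mul_le_mul_of_nonneg_right hZ (by positivity)
    have hp := psi_nonneg j c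
    by_cases hcc : a j ≤ c ∧ c < b j
    · rw [f_slow hcc.1 hcc.2]
      have e : psi j (c+1) = 10 * psi j c := by
        unfold psi
        have : min (c + 1 - a j) (J j) = min (c - a j) (J j) + 1 := by
          unfold b at hcc
          omega
        rw [this, pow_succ]
        ring
      rw [e]
      calc (J j : ℝ) * (10 * psi j c - psi j c) = 9 * J j * psi j c := by ring
        _ ≤ Z h * xx k j * psi j c := mul_le_mul_of_nonneg_right hZx hp
        _ = _ := by ring
    · have e : psi j (c+1) = psi j c := by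
        unfold psi
        congr 1
        unfold b at hcc
        rcases Nat.lt_or_ge c (a j) with h3 | h3
        · omega
        · have : a j + J j ≤ c := by
            by_contra hc2
            exact hcc ⟨h3, by omega⟩
          omega
      rw [e, sub_self, mul_zero]
      have := xx_nonneg k j
      have hZ0 := (Z_pos h).le
      positivity

theorem Pop_phi1 {k : ℕ} {h : List ℕ} (hs : s k ≤ h.length) (hc : h.count (h.length + 1) = 0) :
    Pop (Sm (s k) phi1) h ≤ Sm (s k) phi1 h + 1 := by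
  refine le_trans (Pop_mono (G := fun _ => Sm (s k) phi1 h + 1) fun v hv => ?_) (Pop_const _ h).le
  rw [Sm_cons phi1 h v hv hs hc]
  have e0 : phi1 0 = 0 := by unfold phi1; simp
  rw [e0]
  split_ifs
  · have h1 : phi1 (h.count v + 1) = 1 := by unfold phi1; rw [if_neg (by omega)]
    have h2 := phi1_nonneg (h.count v)
    rw [h1]
    linarith
  · linarith

theorem Pop_chi {k : ℕ} {h : List ℕ} (hl : K (k-1) ≤ h.length) (hs : s k ≤ h.length)
    (hc : h.count (h.length + 1) = 0) :
    Pop (Sm (s k) chi) h ≤ Sm (s k) chi h + 1 / K (k-1) * Sm (s k) phi1 h := by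
  have h1 := Pop_Sm chi (fun c => 1 / (K (k-1) : ℝ) * phi1 c) hs hc ?_
  · have e1 : Sm (s k) (fun c => 1 / (K (k-1) : ℝ) * phi1 c) h = 1 / (K (k-1) : ℝ) * Sm (s k) phi1 h := by
      unfold Sm; rw [mul_sum]
    have e2 : chi 0 = 0 := by unfold chi; simp
    rw [e1, e2] at h1
    linarith
  · intro c
    have hZ := Z_ge' hl
    have hK := Kr_pos (k-1)
    have hZx : 128 ≤ Z h * (1 / (K (k-1) : ℝ)) := by
      rw [mul_one_div, le_div_iff₀ hK]
      exact hZ
    by_cases hcc : 1 ≤ c ∧ c < 128
    · have hf : f c = 128 := by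
        rw [f_slow (k := 0) (Nat.zero_le _) (by rw [b_zero]; exact hcc.2), J_zero]
        norm_num
      have e : chi (c+1) = chi c + 1 := by
        unfold chi
        have : min (c + 1 - 1) 127 = min (c-1) 127 + 1 := by omega
        rw [this]
        push_cast
        ring
      have e1 : phi1 c = 1 := by unfold phi1; rw [if_neg (by omega)]
      rw [hf, e, e1]
      linarith
    · have e : chi (c+1) = chi c := by
        unfold chi
        congr 1
        omega
      rw [e, sub_self, mul_zero]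
      have := phi1_nonneg c
      have hZ0 := (Z_pos h).le
      positivity

theorem s_le (k : ℕ) (hk : 6 ≤ k) : s k ≤ K (k-1) := N_le_K (by omega)

theorem k0_le_M {k : ℕ} (hk : 6 ≤ k) : a k0 ≤ K (k-1) := by
  have h1 : a k0 ≤ a (k-1) := a_strictMono.monotone (by rw [k0_eq]; omega)
  have h2 := a_le_N (k := k-1) (by omega)
  have h3 := N_le_K (k := k-1) (by omega)
  omega

/-- number of steps from the start to time `K (k-1)` -/
noncomputable def nM (k : ℕ) : ℕ := K (k-1) - a k0

theorem nM_add {k : ℕ} (hk : 6 ≤ k) : a k0 + nM k = K (k-1) := by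
  have := k0_le_M hk
  unfold nM
  omega

theorem Ex_root {k : ℕ} (hk : 6 ≤ k) (τ : ℕ) :
    Ex (nM k + τ) (Rt k) ≤ τ * (J k / (128 * K (k-1))) := by
  induction τ with
  | zero =>
    refine (Ex_mono (G := fun _ => 0) fun x hG hx => ?_).trans ?_
    · rw [Nat.add_zero, nM_add hk] at hx
      have := (at_M hk hG hx).1
      unfold Rt
      have e : min (x.count 0 - a k) (J k) = 0 := by omega
      rw [e, Nat.cast_zero]
    · simpa using Ex_const_le (c := 0) le_rfl (nM k + 0)
  | succ τ ih =>
    rw [← Nat.add_assoc]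
    have hc : (0:ℝ) ≤ J k / (128 * K (k-1)) := by positivity
    refine (Ex_succ_le (G := fun x => Rt k x + J k / (128 * K (k-1))) (Rt_nonneg k) fun x hG hx => ?_).trans ?_
    · refine Pop_Rt (K_pos _) ?_
      have := nM_add hk
      omega
    · rw [Ex_add (Rt k) (fun _ => (J k : ℝ) / (128 * K (k-1)))]
      have := Ex_const_le hc (nM k + τ)
      push_cast
      linarith

theorem Ex_phi1 {k : ℕ} (hk : 6 ≤ k) (τ : ℕ) : Ex (nM k + τ) (Sm (s k) phi1) ≤ τ := by
  induction τ with
  | zero =>
    refine (Ex_mono (G := fun _ => 0) fun x hG hx => ?_).trans ?_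
    · rw [Nat.add_zero, nM_add hk] at hx
      have h2 := (at_M hk hG hx).2
      unfold Sm
      refine le_of_eq (sum_eq_zero fun v hv => ?_)
      rw [mem_Icc] at hv
      rw [h2 v (by unfold s at hv; exact hv.1)]
      unfold phi1; simp
    · simpa using Ex_const_le (c := 0) le_rfl (nM k + 0)
  | succ τ ih =>
    rw [← Nat.add_assoc]
    refine (Ex_succ_le (G := fun x => Sm (s k) phi1 x + 1) (Sm_nonneg phi1_nonneg) fun x hG hx => ?_).trans ?_
    · have := nM_add hk
      have h3 := s_le k hk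
      exact Pop_phi1 (by omega) (hG.count_big _ (by omega))
    · rw [Ex_add (Sm (s k) phi1) (fun _ => (1:ℝ))]
      have := Ex_const_le (c := 1) zero_le_one (nM k + τ)
      push_cast
      linarith

theorem Ex_chi {k : ℕ} (hk : 6 ≤ k) (τ : ℕ) : Ex (nM k + τ) (Sm (s k) chi) ≤ (τ:ℝ)^2 / K (k-1) := by
  have hK := Kr_pos (k-1)
  induction τ with
  | zero =>
    refine (Ex_mono (G := fun _ => 0) fun x hG hx => ?_).trans ?_
    · rw [Nat.add_zero, nM_add hk] at hx
      have h2 := (at_M hk hG hx).2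
      unfold Sm
      refine le_of_eq (sum_eq_zero fun v hv => ?_)
      rw [mem_Icc] at hv
      rw [h2 v (by unfold s at hv; exact hv.1)]
      unfold chi; simp
    · simpa using Ex_const_le (c := 0) le_rfl (nM k + 0)
  | succ τ ih =>
    rw [← Nat.add_assoc]
    refine (Ex_succ_le (G := fun x => Sm (s k) chi x + 1 / K (k-1) * Sm (s k) phi1 x) (Sm_nonneg chi_nonneg)
      fun x hG hx => ?_).trans ?_
    · have := nM_add hk
      have h3 := s_le k hk
      exact Pop_chi (by omega) (by omega) (hG.count_big _ (by omega))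
    · rw [Ex_add (Sm (s k) chi) (fun x => 1 / (K (k-1) : ℝ) * Sm (s k) phi1 x), Ex_smul]
      have h4 := Ex_phi1 hk τ
      have h5 : 1 / (K (k-1) : ℝ) * Ex (nM k + τ) (Sm (s k) phi1) ≤ 1 / (K (k-1) : ℝ) * τ :=
        mul_le_mul_of_nonneg_left h4 (by positivity)
      have h6 : ((τ:ℝ))^2 / K (k-1) + 1 / (K (k-1) : ℝ) * τ ≤ ((τ+1 : ℕ) : ℝ)^2 / K (k-1) := by
        have : ((τ:ℝ))^2 / K (k-1) + 1 / (K (k-1) : ℝ) * τ = (τ^2 + τ) / K (k-1) := by ring
        rw [this]
        refine div_le_div_of_nonneg_right ?_ hK.le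
        push_cast
        nlinarith [Nat.cast_nonneg (α := ℝ) τ]
      linarith

theorem Ex_psi {k : ℕ} (hk : 6 ≤ k) (j τ : ℕ) :
    Ex (nM k + τ) (Sm (s k) (psi j)) ≤ ((K (k-1) : ℝ) + τ) * (1 + xx k j)^τ := by
  have hx0 := xx_nonneg k j
  have hK := Kr_pos (k-1)
  induction τ with
  | zero =>
    refine (Ex_mono (G := fun _ => (K (k-1) : ℝ)) fun x hG hx => ?_).trans ?_
    · rw [Nat.add_zero, nM_add hk] at hx
      have h2 := (at_M hk hG hx).2
      unfold Sm
      have h3 : ∀ v ∈ Icc (s k) x.length, psi j (x.count v) = 1 := by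
        intro v hv
        rw [mem_Icc] at hv
        rw [h2 v (by unfold s at hv; exact hv.1)]
        unfold psi; simp
      rw [sum_congr rfl h3, sum_const, Nat.card_Icc, nsmul_eq_mul, mul_one, hx]
      have : K (k-1) + 1 - s k ≤ K (k-1) := by unfold s; omega
      exact_mod_cast this
    · have := Ex_const_le hK.le (nM k + 0)
      simpa using this
  | succ τ ih =>
    rw [← Nat.add_assoc]
    refine (Ex_succ_le (G := fun x => (1 + xx k j) * Sm (s k) (psi j) x + 1) (Sm_nonneg (psi_nonneg j))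
      fun x hG hx => ?_).trans ?_
    · have := nM_add hk
      have h3 := s_le k hk
      exact Pop_psi (by omega) (by omega) (hG.count_big _ (by omega))
    · rw [Ex_add (fun x => (1 + xx k j) * Sm (s k) (psi j) x) (fun _ => (1:ℝ)), Ex_smul]
      have h4 := Ex_const_le (c := 1) zero_le_one (nM k + τ)
      have h5 : (1 + xx k j) * Ex (nM k + τ) (Sm (s k) (psi j)) ≤ (1 + xx k j) * (((K (k-1) : ℝ) + τ) * (1 + xx k j)^τ) :=
        mul_le_mul_of_nonneg_left ih (by linarith)
      have h6 : 1 ≤ (1 + xx k j)^(τ+1) := one_le_pow₀ (by linarith)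
      have e : (1 + xx k j) * (((K (k-1) : ℝ) + τ) * (1 + xx k j)^τ) = ((K (k-1) : ℝ) + τ) * (1 + xx k j)^(τ+1) := by ring
      push_cast
      nlinarith

/-- the bad contributions -/
noncomputable def Bd (k : ℕ) (h : List ℕ) : ℝ :=
  Rt k h + Sm (s k) chi h + ∑ j ∈ range (k-1), w j * Sm (s k) (psi j) h

theorem w_bound (j : ℕ) : w j * 2 ^ (J j) ≤ 2 * (1/2)^(20 + j) := by
  have h1 : (K j : ℝ) ≤ 2^(J j) := by
    have : K j ≤ 2^(J j) := K_le_H j
    exact_mod_cast this
  have h2 : (J (j+1) : ℝ) ≤ 2^(J j) := by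
    have : J (j+1) ≤ 2^(J j) := J_succ_le_H j
    exact_mod_cast this
  unfold w
  have e : (10:ℝ)^(J j) = 2^(J j) * 5^(J j) := by rw [← mul_pow]; norm_num
  have h3 : ((K j : ℝ) + J (j+1)) / 10 ^ (J j) * 2^(J j) = ((K j : ℝ) + J (j+1)) / 5^(J j) := by
    rw [e]; field_simp
  rw [h3, div_le_iff₀ (by positivity)]
  have h4 : (1/2:ℝ)^(20+j) * 5^(J j) ≥ 2^(J j) := by
    have h5 : (1/2:ℝ)^(J j) ≤ (1/2)^(20+j) := by
      refine pow_le_pow_of_le_one (by norm_num) (by norm_num) ?_
      have := J_ge j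
      omega
    have h6 : (4:ℝ)^(J j) ≤ 5^(J j) := pow_le_pow_left₀ (by norm_num) (by norm_num) _
    have h7 : (2:ℝ)^(J j) = (1/2)^(J j) * 4^(J j) := by rw [← mul_pow]; norm_num
    rw [h7]
    exact mul_le_mul h5 h6 (by positivity) (by positivity)
  linarith

theorem Ex_Bd {k : ℕ} (hk : 6 ≤ k) :
    Ex (nM k + L k) (Bd k) ≤ L k * (J k / (128 * K (k-1))) + (L k : ℝ)^2 / K (k-1) +
      ((K (k-1) : ℝ) + L k) * (4 * (1/2)^20) := by
  have hK := Kr_pos (k-1)
  have h1 := Ex_root hk (L k)
  have h2 := Ex_chi hk (L k)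
  have e : Bd k = fun h => (Rt k h + Sm (s k) chi h) + ∑ j ∈ range (k-1), w j * Sm (s k) (psi j) h := rfl
  rw [e, Ex_add (fun h => Rt k h + Sm (s k) chi h) (fun h => ∑ j ∈ range (k-1), w j * Sm (s k) (psi j) h),
    Ex_add (Rt k) (Sm (s k) chi), Ex_sum]
  have h3 : ∑ j ∈ range (k-1), Ex (nM k + L k) (fun h => w j * Sm (s k) (psi j) h) ≤
      ((K (k-1) : ℝ) + L k) * (4 * (1/2)^20) := by
    have h4 : ∀ j ∈ range (k-1), Ex (nM k + L k) (fun h => w j * Sm (s k) (psi j) h) ≤
        ((K (k-1) : ℝ) + L k) * (2 * (1/2)^20) * (1/2)^j := by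
      intro j _
      rw [Ex_smul]
      have h5 := Ex_psi hk j (L k)
      have h6 : (1 + xx k j)^(L k) ≤ 2^(J j) := by
        have h7 : 1 + xx k j ≤ Real.exp (xx k j) := by
          have := Real.add_one_le_exp (xx k j)
          linarith
        have hx0 := xx_nonneg k j
        calc (1 + xx k j)^(L k) ≤ (Real.exp (xx k j))^(L k) := pow_le_pow_left₀ (by linarith) h7 _
          _ = Real.exp (L k * xx k j) := by rw [← Real.exp_nat_mul]
          _ ≤ Real.exp (J j * (1/2)) := by
              refine Real.exp_le_exp.mpr ?_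
              unfold xx
              have hL : (L k : ℝ) ≤ K (k-1) := by
                have : L k ≤ K (k-1) := Nat.div_le_self _ _
                exact_mod_cast this
              have hJ : (0:ℝ) ≤ J j := Nat.cast_nonneg _
              rw [← mul_div_assoc, div_le_iff₀ (by positivity)]
              nlinarith [mul_le_mul_of_nonneg_right hL hJ, mul_nonneg hK.le hJ]
          _ = (Real.exp (1/2))^(J j) := by rw [← Real.exp_nat_mul]
          _ ≤ 2^(J j) := by
              refine pow_le_pow_left₀ (Real.exp_pos _).le ?_ _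
              have h5 : Real.exp (1/2) ^ 2 ≤ 4 := by
                rw [← Real.exp_nat_mul]
                have := Real.exp_one_lt_d9
                have e : ((2:ℕ):ℝ) * (1/2) = 1 := by norm_num
                rw [e]
                linarith
              nlinarith [Real.exp_pos (1/2)]
      have h8 := w_bound j
      have h9 := w_nonneg j
      calc w j * Ex (nM k + L k) (Sm (s k) (psi j)) ≤ w j * (((K (k-1) : ℝ) + L k) * 2^(J j)) := by
            refine mul_le_mul_of_nonneg_left (h5.trans ?_) h9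
            exact mul_le_mul_of_nonneg_left h6 (by positivity)
        _ = ((K (k-1) : ℝ) + L k) * (w j * 2^(J j)) := by ring
        _ ≤ ((K (k-1) : ℝ) + L k) * (2 * (1/2)^(20 + j)) := mul_le_mul_of_nonneg_left h8 (by positivity)
        _ = _ := by rw [pow_add]; ring
    refine (sum_le_sum h4).trans ?_
    rw [← mul_sum]
    have h10 : ∑ j ∈ range (k-1), (1/2:ℝ)^j ≤ 2 := by
      have : ∀ n : ℕ, ∑ j ∈ range n, (1/2:ℝ)^j ≤ 2 - (1/2)^n * 2 := by
        intro n
        induction n with
        | zero => norm_num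
        | succ n ih => rw [sum_range_succ, pow_succ]; linarith
      have h11 := this (k-1)
      have : (0:ℝ) < (1/2)^(k-1) := by positivity
      linarith
    calc ((K (k-1) : ℝ) + L k) * (2 * (1/2)^20) * ∑ j ∈ range (k-1), (1/2:ℝ)^j ≤
        ((K (k-1) : ℝ) + L k) * (2 * (1/2)^20) * 2 := mul_le_mul_of_nonneg_left h10 (by positivity)
      _ = _ := by ring
  linarith

end Pool.Agent.R953.FR
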