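import Pool.Agent.R953.FR.P7

/-!
# Fitness recursive trees with a bursting fitness: probability of a drop
-/

set_option autoImplicit false
open Finset

namespace Pool.Agent.R953.FR

theorem sum_count (h : List ℕ) (n : ℕ) (hn : ∀ u, n ≤ u → h.count u = 0) :
    ∑ v ∈ range n, h.count v = h.length := by
  induction h with
  | nil => simp
  | cons x h ih =>
    have hx : x < n := by
      by_contra hc
      have := hn x (by omega)
      rw [count_cons', if_pos rfl] at this
      omega
    have ih' := ih fun u hu => by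
      have := hn u hu
      rw [count_cons'] at this
      omega
    rw [sum_congr rfl (fun v _ => count_cons' v x h), sum_add_distrib, ih',
      sum_ite_eq' (range n) x, if_pos (mem_range.mpr hx), List.length_cons]

theorem KL (k : ℕ) : K (k-1) = 16 * L k := by
  unfold L K
  have : J (k-1-1) / 2 = (J (k-1-1)/2 - 4) + 4 := by
    have := J_ge128 (k-1-1)
    omega
  rw [this, pow_add]
  omega

theorem small {k : ℕ} (hk : 6 ≤ k) : 4 * (s k + 1) * b (k-1) ≤ L k := by
  have hL : L k = 2 ^ (J (k-2) / 2 - 4) := by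
    have h1 := KL k
    have h2 : K (k-1) = 2 ^ (J (k-2) / 2) := rfl
    have h3 : J (k-2) / 2 = (J (k-2)/2 - 4) + 4 := by
      have := J_ge128 (k-2)
      omega
    rw [h2, h3, pow_add] at h1
    omega
  set x := J (k-3) with hx
  have hx128 : 128 ≤ x := J_ge128 _
  have hxk : k - 1 ≤ x := by
    have := J_ge (k-3)
    omega
  have hJ2 : J (k-2) = x^3 := by
    have : k - 2 = (k-3) + 1 := by omega
    rw [this, J_succ]
  have hJ1 : J (k-1) = x^9 := by
    have : k - 1 = (k-2) + 1 := by omega
    rw [this, J_succ, hJ2]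
    ring
  have hN : N (k-1) = 2 ^ (3 * (k-1) * x) := by
    unfold N
    rfl
  have hb : b (k-1) ≤ 2^(x+1) := by
    unfold b
    have h1 : a (k-1) ≤ 2^x := by
      have := a_le (k := k-1) (by omega)
      exact this
    have h2 : J (k-1) ≤ 2^x := by
      rw [hJ1]
      refine (J_pow9 (k-3)).trans ?_
      exact Nat.pow_le_pow_right (by norm_num) (Nat.div_le_self _ _)
    calc a (k-1) + J (k-1) ≤ 2^x + 2^x := by omega
      _ = _ := by ring
  have hs : s k + 1 ≤ 2 ^ (3 * (k-1) * x + 1) := by
    unfold s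
    rw [hN]
    have h1 : 2 ≤ 2 ^ (3 * (k-1) * x) := by
      calc 2 = 2^1 := by norm_num
        _ ≤ _ := Nat.pow_le_pow_right (by norm_num) (by
          have : 1 ≤ (k-1) := by omega
          nlinarith)
    calc 2 ^ (3 * (k-1) * x) + 1 + 1 ≤ 2 ^ (3 * (k-1) * x) + 2 ^ (3 * (k-1) * x) := by omega
      _ = _ := by ring
  calc 4 * (s k + 1) * b (k-1) ≤ 4 * 2 ^ (3 * (k-1) * x + 1) * 2^(x+1) :=
        Nat.mul_le_mul (Nat.mul_le_mul_left _ hs) hb
    _ = 2 ^ (3 * (k-1) * x + x + 4) := by
        have : (4:ℕ) = 2^2 := by norm_num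
        rw [this, ← pow_add, ← pow_add]
        congr 1
        ring
    _ ≤ L k := by
        rw [hL, hJ2]
        refine Nat.pow_le_pow_right (by norm_num) ?_
        have h3 : 3 * (k-1) * x ≤ 3 * x * x := Nat.mul_le_mul_right _ (Nat.mul_le_mul_left _ hxk)
        have h4 : 128 * (x * x) ≤ x^3 := by
          calc 128 * (x*x) ≤ x * (x*x) := Nat.mul_le_mul_right _ hx128
            _ = _ := by ring
        have h5 : 128 * x ≤ x * x := Nat.mul_le_mul_right _ hx128
        have h6 : 3 * x * x = 3 * (x * x) := by ring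
        omega

theorem at_T {k : ℕ} (hk : 6 ≤ k) {h : List ℕ} (hG : Good h) (hl : h.length = K (k-1) + L k)
    (h0 : h.count 0 < b k) : ph (h.count 0) = k := by
  have hsm := small hk
  have hbpos : 0 < b (k-1) := lt_of_le_of_lt (Nat.zero_le _) (a_lt_b _)
  have hsL : N (k-1) + 1 < L k := by
    have h1 : 4 * (s k + 1) * 1 ≤ 4 * (s k + 1) * b (k-1) := Nat.mul_le_mul_left _ hbpos
    unfold s at h1 hsm
    omega
  set j := ph (h.count 0) with hj
  have hj1 := a_ph_le (h.count 0)
  have hj2 := lt_a_ph (h.count 0)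
  rw [← hj] at hj1 hj2
  have hj4 : 4 ≤ j := hG.ph_ge
  have hjk : j < k + 1 := by
    refine a_strictMono.lt_iff_lt.mp (lt_of_le_of_lt hj1 (h0.trans (b_lt_a k)))
  by_contra hne
  have hjk2 : j ≤ k - 1 := by omega
  have hNK := N_le_K (k := k-1) (by omega)
  have hNj := N_mono hjk2
  rcases Nat.lt_or_ge (h.count 0) (b j) with h2 | h2
  · have h3 := hG.cond.2 (by rw [← hj]; exact h2)
    rw [← hj] at h3
    omega
  · obtain ⟨i1, _⟩ := hG.fast_inv j h2 hj2
    rw [a_succ] at hj2
    rcases Nat.lt_or_ge j (k-1) with h3 | h3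
    · have h4 := K_mono' (show 1 ≤ j by omega) h3
      have h5 := N_le_K (k := j) (by omega)
      omega
    · have h4 : j = k - 1 := by omega
      rw [h4] at i1 hj2
      omega

theorem b_tele (i : ℕ) : ∑ j ∈ range i, (K j + J (j+1)) = b i - b 0 := by
  induction i with
  | zero => simp
  | succ i ih =>
    rw [sum_range_succ, ih]
    have h1 : b (i+1) = b i + K i + J (i+1) := rfl
    have h2 : b 0 ≤ b i := b_strictMono.monotone (Nat.zero_le _)
    omega

theorem pointwise {k c : ℕ} (hc : c < b (k-1)) :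
    (c : ℝ) ≤ phi1 c + chi c + ∑ j ∈ range (k-1), w j * psi j c := by
  have hnn : ∀ j ∈ range (k-1), 0 ≤ w j * psi j c := fun j _ => mul_nonneg (w_nonneg j) (psi_nonneg j c)
  have hsum := sum_nonneg hnn
  rcases Nat.lt_or_ge c (b 0) with h | h
  · rw [b_zero] at h
    rcases Nat.eq_zero_or_pos c with h0 | h0
    · subst h0
      have := phi1_nonneg 0
      have := chi_nonneg 0
      push_cast
      linarith
    · have e1 : phi1 c = 1 := by unfold phi1; rw [if_neg (by omega)]
      have e2 : chi c = (c:ℝ) - 1 := by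
        unfold chi
        have : min (c-1) 127 = c - 1 := by omega
        rw [this, Nat.cast_sub h0]
        simp
      rw [e1, e2]
      linarith
  · obtain ⟨i, hi1, hi2⟩ := exists_block h
    have hik : i < k - 1 := b_strictMono.lt_iff_lt.mp (lt_of_le_of_lt hi1 hc)
    have h128 : 128 ≤ c := by rw [b_zero] at h; exact h
    have e1 : phi1 c = 1 := by unfold phi1; rw [if_neg (by omega)]
    have e2 : chi c = 127 := by
      unfold chi
      have : min (c-1) 127 = 127 := by omega
      rw [this]; norm_num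
    have h3 : ∑ j ∈ range (i+1), w j * psi j c ≤ ∑ j ∈ range (k-1), w j * psi j c :=
      sum_le_sum_of_subset_of_nonneg (range_subset_range.mpr (by omega)) fun j hj _ => hnn j hj
    have h4 : ∑ j ∈ range (i+1), w j * psi j c = ((b (i+1) - b 0 : ℕ) : ℝ) := by
      rw [← b_tele]
      push_cast
      refine sum_congr rfl fun j hj => ?_
      rw [mem_range] at hj
      have hbj : b j ≤ c := (b_strictMono.monotone (by omega)).trans hi1
      have e3 : psi j c = 10^(J j) := by
        unfold psi
        congr 1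
        unfold b at hbj
        omega
      rw [e3]
      unfold w
      field_simp
    have h5 : (c:ℝ) ≤ b (i+1) := by exact_mod_cast hi2.le
    have h6 : ((b (i+1) - b 0 : ℕ) : ℝ) = b (i+1) - 128 := by
      rw [Nat.cast_sub (b_strictMono.monotone (Nat.zero_le _)), b_zero]
      norm_num
    rw [e1, e2]
    linarith

theorem main_count {k : ℕ} (hk : 6 ≤ k) {h : List ℕ} (hG : Good h) (hl : h.length = K (k-1) + L k)
    (h0 : h.count 0 < b k) :
    (L k : ℝ) ≤ ((s k + 1) * b (k-1) : ℕ) + Bd k h + Sm (s k) phi1 h := by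
  have hph := at_T hk hG hl h0
  have hc1 := hG.cond.1
  rw [hph] at hc1
  have hak : a k ≤ h.count 0 := hph ▸ a_ph_le (h.count 0)
  have hsK := s_le k hk
  have hlen := sum_count h (h.length + 1) (fun u hu => hG.count_big u (by omega))
  have hs1 : 1 ≤ s k := by unfold s; omega
  have hsplit : range (h.length + 1) = insert 0 (Ico 1 (s k) ∪ Icc (s k) h.length) := by
    ext x
    simp only [mem_range, mem_insert, mem_union, mem_Ico, mem_Icc]
    omega
  have hdisj : Disjoint (Ico 1 (s k)) (Icc (s k) h.length) := by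
    rw [Finset.disjoint_left]
    intro x hx hx2
    rw [mem_Ico] at hx
    rw [mem_Icc] at hx2
    omega
  rw [hsplit, sum_insert (by simp; omega), sum_union hdisj] at hlen
  have hold : ∑ v ∈ Ico 1 (s k), h.count v ≤ s k * b (k-1) := by
    calc ∑ v ∈ Ico 1 (s k), h.count v ≤ ∑ v ∈ Ico 1 (s k), b (k-1) :=
          sum_le_sum fun v hv => (hc1 v (mem_Ico.mp hv).1).le
      _ = (s k - 1) * b (k-1) := by rw [sum_const, Nat.card_Ico, smul_eq_mul]
      _ ≤ _ := Nat.mul_le_mul_right _ (by omega)
  have hnew : (∑ v ∈ Icc (s k) h.length, (h.count v : ℝ)) ≤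
      Sm (s k) phi1 h + Sm (s k) chi h + ∑ j ∈ range (k-1), w j * Sm (s k) (psi j) h := by
    have e : Sm (s k) phi1 h + Sm (s k) chi h + ∑ j ∈ range (k-1), w j * Sm (s k) (psi j) h =
        ∑ v ∈ Icc (s k) h.length, (phi1 (h.count v) + chi (h.count v) + ∑ j ∈ range (k-1), w j * psi j (h.count v)) := by
      unfold Sm
      rw [sum_add_distrib, sum_add_distrib, sum_comm]
      congr 1
      refine sum_congr rfl fun j _ => ?_
      rw [mul_sum]
    rw [e]
    refine sum_le_sum fun v hv => ?_
    rw [mem_Icc] at hv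
    exact pointwise (hc1 v (by omega))
  have hroot : (h.count 0 : ℝ) ≤ b (k-1) + K (k-1) + Rt k h := by
    have h1 : a k = b (k-1) + K (k-1) := by
      have : k = (k-1)+1 := by omega
      conv_lhs => rw [this, a_succ]
    have h2 : h.count 0 = a k + min (h.count 0 - a k) (J k) := by
      unfold b at h0
      omega
    unfold Rt
    have h3 : h.count 0 ≤ b (k-1) + K (k-1) + min (h.count 0 - a k) (J k) := by omega
    exact_mod_cast h3
  have hlenr : (h.count 0 : ℝ) + ((∑ v ∈ Ico 1 (s k), h.count v : ℕ) + ∑ v ∈ Icc (s k) h.length, (h.count v : ℝ)) =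
      K (k-1) + L k := by
    rw [hl] at hlen
    have := congrArg (fun x : ℕ => (x : ℝ)) hlen
    push_cast at this
    push_cast
    rw [hl]
    exact this
  have holdr : ((∑ v ∈ Ico 1 (s k), h.count v : ℕ) : ℝ) ≤ s k * b (k-1) := by exact_mod_cast hold
  unfold Bd
  push_cast
  linarith

open Classical in
/-- many non-leaves -/
noncomputable def Dr (k : ℕ) (h : List ℕ) : ℝ := if (L k : ℝ) / 4 ≤ Sm (s k) phi1 h then 1 else 0

theorem drop_prob {k : ℕ} (hk : 6 ≤ k) : 1/2 ≤ Pop^[nM k + L k] (Dr k) base := by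
  classical
  set n := nM k + L k with hn
  have hK16 := KL k
  have hLpos : 0 < L k := by
    have := K_pos (k-1)
    omega
  have hLr : (0:ℝ) < L k := by exact_mod_cast hLpos
  have hKr : (K (k-1) : ℝ) = 16 * L k := by exact_mod_cast hK16
  have hJr : (0:ℝ) < J k := by exact_mod_cast J_pos k
  have hJK : (J k : ℝ) ≤ K (k-1) := by
    have h2 : J k = (J (k-2))^9 := by
      have hk1 : k = k - 2 + 1 + 1 := by omega
      conv_lhs => rw [hk1, J_succ, J_succ]
      ring
    have h3 : J k ≤ K (k-1) := by
      rw [h2]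
      exact J_pow9 (k-2)
    exact_mod_cast h3
  have hBd0 : ∀ x, 0 ≤ Bd k x := by
    intro x
    unfold Bd
    have h1 := Rt_nonneg k x
    have h2 := Sm_nonneg (s := s k) chi_nonneg x
    have h3 : 0 ≤ ∑ j ∈ range (k-1), w j * Sm (s k) (psi j) x :=
      sum_nonneg fun j _ => mul_nonneg (w_nonneg j) (Sm_nonneg (psi_nonneg j) x)
    linarith
  -- complement
  have hcompl : Pop^[n] (fun h => 1 - Dr k h) base ≤
      Pop^[n] (fun h => if Good h then (0:ℝ) else 1) base +
        Ex n (fun h => 1 / (J k : ℝ) * Rt k h + 2 / (L k : ℝ) * Bd k h) := by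
    unfold Ex
    rw [← iter_add]
    refine iter_mono' n base fun x hx => ?_
    rw [base_length, hn, ← Nat.add_assoc, nM_add hk] at hx
    have hR := Rt_nonneg k x
    have hB := hBd0 x
    by_cases hG : Good x
    · have e1 : (if Good x then (0:ℝ) else 1) = 0 := if_pos hG
      have e2 : ind (fun h => 1 / (J k : ℝ) * Rt k h + 2 / (L k : ℝ) * Bd k h) x =
          1 / (J k : ℝ) * Rt k x + 2 / (L k : ℝ) * Bd k x := by unfold ind; rw [if_pos hG]
      rw [e1, e2, zero_add]
      have hp1 : 0 ≤ 1 / (J k : ℝ) * Rt k x := by positivity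
      have hp2 : 0 ≤ 2 / (L k : ℝ) * Bd k x := by positivity
      unfold Dr
      split_ifs with hD
      · linarith
      · rw [sub_zero]
        rcases Nat.lt_or_ge (x.count 0) (b k) with h0 | h0
        · have h1 := main_count hk hG hx h0
          push Not at hD
          have h2 : (((s k + 1) * b (k-1) : ℕ) : ℝ) ≤ L k / 4 := by
            have := small hk
            have h3 : ((4 * (s k + 1) * b (k-1) : ℕ) : ℝ) ≤ L k := by exact_mod_cast this
            push_cast at h3 ⊢
            linarith
          have h3 : (L k : ℝ) / 2 ≤ Bd k x := by linarith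
          have h4 : 1 ≤ 2 / (L k : ℝ) * Bd k x := by
            calc (1:ℝ) = 2 / L k * (L k / 2) := by field_simp
              _ ≤ _ := mul_le_mul_of_nonneg_left h3 (by positivity)
          linarith
        · have h1 : Rt k x = J k := by
            unfold Rt
            have : min (x.count 0 - a k) (J k) = J k := by
              unfold b at h0
              omega
            rw [this]
          have h2 : 1 / (J k : ℝ) * Rt k x = 1 := by
            rw [h1]; field_simp
          linarith
    · have e1 : (if Good x then (0:ℝ) else 1) = 1 := if_neg hG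
      have e2 : ind (fun h => 1 / (J k : ℝ) * Rt k h + 2 / (L k : ℝ) * Bd k h) x = 0 := by
        unfold ind; rw [if_neg hG]
      rw [e1, e2, add_zero]
      have : 0 ≤ Dr k x := by unfold Dr; split_ifs <;> norm_num
      linarith
  have hbad := (bad_le n).trans FF_base
  have hEx : Ex n (fun h => 1 / (J k : ℝ) * Rt k h + 2 / (L k : ℝ) * Bd k h) ≤ 1/2048 + (1/64 + 1/8 + 1/1000) := by
    rw [Ex_add (fun h => 1 / (J k : ℝ) * Rt k h) (fun h => 2 / (L k : ℝ) * Bd k h), Ex_smul, Ex_smul]
    have h1 := Ex_root hk (L k)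
    have h2 := Ex_Bd hk
    rw [← hn] at h1 h2
    refine add_le_add ?_ ?_
    · calc 1 / (J k : ℝ) * Ex n (Rt k) ≤ 1 / (J k : ℝ) * (L k * (J k / (128 * K (k-1)))) :=
            mul_le_mul_of_nonneg_left h1 (by positivity)
        _ = 1/2048 := by rw [hKr]; field_simp; norm_num
    · calc 2 / (L k : ℝ) * Ex n (Bd k) ≤ 2 / (L k : ℝ) * (L k * (J k / (128 * K (k-1))) + (L k : ℝ)^2 / K (k-1) +
          ((K (k-1) : ℝ) + L k) * (4 * (1/2)^20)) := mul_le_mul_of_nonneg_left h2 (by positivity)
        _ = J k / (64 * K (k-1)) + 1/8 + 34 * (4 * (1/2)^20) := by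
            rw [hKr]; field_simp; ring
        _ ≤ 1/64 + 1/8 + 1/1000 := by
            have h3 : (J k : ℝ) / (64 * K (k-1)) ≤ 1/64 := by
              have hKpos := Kr_pos (k-1)
              rw [div_le_div_iff₀ (by linarith) (by norm_num)]
              linarith
            have h4 : (34:ℝ) * (4 * (1/2)^20) ≤ 1/1000 := by norm_num
            linarith
  have htot : Pop^[n] (Dr k) base + Pop^[n] (fun h => 1 - Dr k h) base = 1 := by
    rw [← iter_add]
    have : (fun x => Dr k x + (1 - Dr k x)) = fun _ => (1:ℝ) := by funext x; ring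
    rw [this, iter_const]
  linarith

/-- number of leaves -/
def leaves (h : List ℕ) : ℕ := ((range (h.length + 1)).filter (fun v => h.count v = 0)).card

theorem leaves_le {k : ℕ} (hk : 6 ≤ k) {h : List ℕ} (hl : h.length = K (k-1) + L k) (hD : Dr k h = 1) :
    (leaves h : ℝ) ≤ (1 - 1/68) * h.length + 1 := by
  classical
  have hD' : (L k : ℝ) / 4 ≤ Sm (s k) phi1 h := by
    unfold Dr at hD
    by_contra hc
    rw [if_neg hc] at hD
    norm_num at hD
  have h1 : Sm (s k) phi1 h ≤ (((range (h.length + 1)).filter (fun v => ¬ h.count v = 0)).card : ℝ) := by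
    unfold Sm
    have h2 : ∑ v ∈ Icc (s k) h.length, phi1 (h.count v) ≤ ∑ v ∈ range (h.length + 1), phi1 (h.count v) := by
      refine sum_le_sum_of_subset_of_nonneg (fun x hx => ?_) fun v _ _ => phi1_nonneg _
      rw [mem_Icc] at hx
      rw [mem_range]
      omega
    refine h2.trans (le_of_eq ?_)
    rw [card_filter]
    push_cast
    refine sum_congr rfl fun v _ => ?_
    unfold phi1
    split_ifs <;> simp_all
  have h3 := card_filter_add_card_filter_not (s := range (h.length + 1)) (fun v => h.count v = 0)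
  rw [card_range] at h3
  have h4 : (leaves h : ℝ) + (((range (h.length + 1)).filter (fun v => ¬ h.count v = 0)).card : ℝ) = h.length + 1 := by
    unfold leaves
    exact_mod_cast h3
  have hK16 := KL k
  have h5 : (h.length : ℝ) = 17 * L k := by
    rw [hl, hK16]; push_cast; ring
  rw [h5] at h4 ⊢
  linarith

end Pool.Agent.R953.FR
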