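import Pool.Agent.R953.FR.P8

/-!
# Fitness recursive trees: definitions, and the law of the sequence of picks
-/

set_option autoImplicit false
open Finset MeasureTheory Filter Topology
open scoped ENNReal NNReal

namespace Pool.Agent.R953.FR

variable {Ω : Type}

/-- The number of times vertex `v` has been picked in the first `t` steps, `c s` being the vertex
picked at step `s`. The out-degree of `v` in `T_t` is `ℓ` times this number. -/
def picks (c : ℕ → Ω → ℕ) (v t : ℕ) (ω : Ω) : ℕ := ((range t).filter fun s => c s ω = v).card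

/-- The total fitness of `T_t`, whose vertices are `0, …, ℓ t`. -/
noncomputable def totalFit (f : ℕ → ℝ≥0 → ℝ≥0) (ℓ : ℕ) (W : ℕ → Ω → ℝ≥0) (c : ℕ → Ω → ℕ) (t : ℕ) (ω : Ω) :
    ℝ≥0 := ∑ v ∈ range (ℓ * t + 1), f (picks c v t ω) (W v ω)

/-- The random tree process: `W v` is the weight of vertex `v`, and `c t` the vertex picked at
step `t`, whose `ℓ` new children are the vertices `ℓ t + 1, …, ℓ t + ℓ`. -/
structure IsTree [MeasurableSpace Ω] (μ : Measure ℝ≥0) (f : ℕ → ℝ≥0 → ℝ≥0) (ℓ : ℕ) (P : Measure Ω)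
    (W : ℕ → Ω → ℝ≥0) (c : ℕ → Ω → ℕ) : Prop where
  meas_W : ∀ v, Measurable (W v)
  meas_c : ∀ t, Measurable (c t)
  root : P.map (W 0) = μ
  /-- given the tree `T_t` and its weights, vertex `j` is picked with probability proportional to
  its fitness -/
  pick : ∀ (t : ℕ) (u : ℕ → ℕ) (B : Set (Fin (ℓ * t + 1) → ℝ≥0)), MeasurableSet B → ∀ j ≤ ℓ * t,
    P {ω | ((∀ s < t, c s ω = u s) ∧ (fun i : Fin (ℓ * t + 1) => W i ω) ∈ B) ∧ c t ω = j} =
      ∫⁻ ω in {ω | (∀ s < t, c s ω = u s) ∧ (fun i : Fin (ℓ * t + 1) => W i ω) ∈ B},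
        ((f (picks c j t ω) (W j ω) / totalFit f ℓ W c t ω : ℝ≥0) : ℝ≥0∞) ∂P
  /-- the weights of the new children are i.i.d. with law `μ` and independent of everything so far -/
  fresh : ∀ (t : ℕ) (u : ℕ → ℕ) (B : Set (Fin (ℓ * t + 1) → ℝ≥0)), MeasurableSet B →
    ∀ C : Set (Fin ℓ → ℝ≥0), MeasurableSet C →
    P {ω | ((∀ s ≤ t, c s ω = u s) ∧ (fun i : Fin (ℓ * t + 1) => W i ω) ∈ B) ∧
        (fun i : Fin ℓ => W (ℓ * t + 1 + i) ω) ∈ C} =
      P {ω | (∀ s ≤ t, c s ω = u s) ∧ (fun i : Fin (ℓ * t + 1) => W i ω) ∈ B} *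
        Measure.pi (fun _ : Fin ℓ => μ) C

open Classical in
/-- The number of leaves of `T_t` with weight in `B`. -/
noncomputable def leafCount (ℓ : ℕ) (W : ℕ → Ω → ℝ≥0) (c : ℕ → Ω → ℕ) (B : Set ℝ≥0) (t : ℕ) (ω : Ω) : ℕ :=
  ((range (ℓ * t + 1)).filter fun v => picks c v t ω = 0 ∧ W v ω ∈ B).card

/-- The function `m(λ)`. -/
noncomputable def mfun (μ : Measure ℝ≥0) (f : ℕ → ℝ≥0 → ℝ≥0) (ℓ : ℕ) (lam : ℝ≥0) : ℝ≥0∞ :=
  ℓ * ∑' n : ℕ, ∫⁻ w, ∏ j ∈ range (n + 1), ((f j w / (lam + f j w) : ℝ≥0) : ℝ≥0∞) ∂μ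

/-- The parameter `α`. -/
noncomputable def alpha (μ : Measure ℝ≥0) (f : ℕ → ℝ≥0 → ℝ≥0) (ℓ : ℕ) : ℝ≥0∞ :=
  sInf ((fun x : ℝ≥0 => (x : ℝ≥0∞)) '' {lam | 0 < lam ∧ mfun μ f ℓ lam < ⊤})

/-! ### The counterexample -/

/-- the fitness of the counterexample does not depend on the weight -/
noncomputable def fF (i : ℕ) (_ : ℝ≥0) : ℝ≥0 := (f i).toNNReal

/-- the history, most recent pick first -/
def hist (c : ℕ → Ω → ℕ) : ℕ → Ω → List ℕ
  | 0, _ => []
  | (t+1), ω => c t ω :: hist c t ω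

theorem hist_length (c : ℕ → Ω → ℕ) (t : ℕ) (ω : Ω) : (hist c t ω).length = t := by
  induction t with
  | zero => rfl
  | succ t ih => show (hist c t ω).length + 1 = _; rw [ih]

theorem hist_count (c : ℕ → Ω → ℕ) (v t : ℕ) (ω : Ω) : (hist c t ω).count v = picks c v t ω := by
  induction t with
  | zero => simp [hist, picks]
  | succ t ih =>
    show (c t ω :: hist c t ω).count v = _
    rw [count_cons', ih]
    unfold picks
    rw [range_add_one, filter_insert]
    by_cases h : c t ω = v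
    · rw [if_pos h.symm, if_pos h, card_insert_of_notMem (by simp)]
    · rw [if_neg (fun e => h e.symm), if_neg h, Nat.add_zero]

theorem hist_iff (c : ℕ → Ω → ℕ) (t : ℕ) (h : List ℕ) (hl : h.length = t) :
    ∃ u : ℕ → ℕ, ∀ ω, hist c t ω = h ↔ ∀ s < t, c s ω = u s := by
  induction t generalizing h with
  | zero =>
    refine ⟨fun _ => 0, fun ω => ?_⟩
    have : h = [] := List.length_eq_zero_iff.mp hl
    subst this
    simp [hist]
  | succ t ih =>
    cases h with
    | nil => simp at hl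
    | cons v h =>
      obtain ⟨u, hu⟩ := ih h (by simpa using hl)
      refine ⟨fun s => if s = t then v else u s, fun ω => ?_⟩
      show c t ω :: hist c t ω = v :: h ↔ _
      rw [List.cons.injEq, hu]
      constructor
      · rintro ⟨h1, h2⟩ s hs
        by_cases hst : s = t
        · subst hst; simp [h1]
        · beta_reduce; rw [if_neg hst]; exact h2 s (by omega)
      · intro h3
        beta_reduce at h3
        refine ⟨?_, fun s hs => ?_⟩
        · have := h3 t (by omega); rwa [if_pos rfl] at this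
        · have hst : s ≠ t := by omega
          have := h3 s (by omega); rwa [if_neg hst] at this

theorem meas_cyl [MeasurableSpace Ω] {c : ℕ → Ω → ℕ} (hc : ∀ t, Measurable (c t)) (t : ℕ) (u : ℕ → ℕ) :
    MeasurableSet {ω | ∀ s < t, c s ω = u s} := by
  have : {ω | ∀ s < t, c s ω = u s} = ⋂ s : ℕ, ⋂ (_ : s < t), (c s) ⁻¹' {u s} := by
    ext ω
    simp
  rw [this]
  exact MeasurableSet.iInter fun s => MeasurableSet.iInter fun _ => hc s (MeasurableSet.singleton _)

theorem meas_hist [MeasurableSpace Ω] {c : ℕ → Ω → ℕ} (hc : ∀ t, Measurable (c t)) (t : ℕ) (h : List ℕ) :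
    MeasurableSet {ω | hist c t ω = h} := by
  by_cases hl : h.length = t
  · obtain ⟨u, hu⟩ := hist_iff c t h hl
    have : {ω | hist c t ω = h} = {ω | ∀ s < t, c s ω = u s} := by
      ext ω; exact hu ω
    rw [this]
    exact meas_cyl hc t u
  · have : {ω | hist c t ω = h} = ∅ := by
      ext ω
      simp only [Set.mem_ofPred_eq, Set.mem_empty_iff_false, iff_false]
      intro e
      rw [← e, hist_length] at hl
      exact hl rfl
    rw [this]
    exact MeasurableSet.empty

theorem meas_hist_mem [MeasurableSpace Ω] {c : ℕ → Ω → ℕ} (hc : ∀ t, Measurable (c t)) (t : ℕ)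
    (S : Set (List ℕ)) : MeasurableSet {ω | hist c t ω ∈ S} := by
  have : {ω | hist c t ω ∈ S} = ⋃ h ∈ S, {ω | hist c t ω = h} := by
    ext ω; simp
  rw [this]
  exact MeasurableSet.biUnion (Set.to_countable S) fun h _ => meas_hist hc t h

theorem totalFit_eq {W : ℕ → Ω → ℝ≥0} {c : ℕ → Ω → ℕ} {t : ℕ} {ω : Ω} :
    totalFit fF 1 W c t ω = (Z (hist c t ω)).toNNReal := by
  unfold totalFit Z fF
  rw [Real.toNNReal_sum_of_nonneg (fun v _ => (f_pos _).le), hist_length, one_mul]
  refine sum_congr rfl fun v _ => ?_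
  rw [hist_count]

/-- one step of the law of the picks -/
theorem law_step [MeasurableSpace Ω] {μ : Measure ℝ≥0} {P : Measure Ω} {W : ℕ → Ω → ℝ≥0} {c : ℕ → Ω → ℕ}
    (hT : IsTree μ fF 1 P W c) (t : ℕ) (h : List ℕ) (hl : h.length = t) (v : ℕ) (hv : v ≤ t) :
    P {ω | hist c (t+1) ω = v :: h} = ENNReal.ofReal (p h v) * P {ω | hist c t ω = h} := by
  obtain ⟨u, hu⟩ := hist_iff c t h hl
  have h1 := hT.pick t u Set.univ MeasurableSet.univ v (by omega)
  have e1 : {ω | ((∀ s < t, c s ω = u s) ∧ (fun i : Fin (1 * t + 1) => W i ω) ∈ (Set.univ : Set _)) ∧ c t ω = v} =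
      {ω | hist c (t+1) ω = v :: h} := by
    ext ω
    simp only [Set.mem_univ, and_true, Set.mem_ofPred_eq]
    show _ ↔ c t ω :: hist c t ω = v :: h
    rw [List.cons.injEq, hu]
    exact and_comm
  have e2 : {ω | (∀ s < t, c s ω = u s) ∧ (fun i : Fin (1 * t + 1) => W i ω) ∈ (Set.univ : Set _)} =
      {ω | hist c t ω = h} := by
    ext ω
    simp only [Set.mem_univ, and_true, Set.mem_ofPred_eq]
    exact (hu ω).symm
  rw [e1, e2] at h1
  rw [h1]
  have e3 : ∫⁻ ω in {ω | hist c t ω = h}, ((fF (picks c v t ω) (W v ω) / totalFit fF 1 W c t ω : ℝ≥0) : ℝ≥0∞) ∂P =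
      ∫⁻ _ in {ω | hist c t ω = h}, ENNReal.ofReal (p h v) ∂P := by
    refine setLIntegral_congr_fun (meas_hist hT.meas_c t h) fun ω hω => ?_
    have hω' : hist c t ω = h := hω
    show ((fF (picks c v t ω) (W v ω) / totalFit fF 1 W c t ω : ℝ≥0) : ℝ≥0∞) = _
    rw [totalFit_eq, hω', ← hist_count, hω']
    unfold fF p
    rw [← Real.toNNReal_div (f_pos _).le]
    rfl
  rw [e3, setLIntegral_const]

open Classical in
/-- lower bound of the law of the picks after `n` further steps -/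
theorem law_ge [MeasurableSpace Ω] {μ : Measure ℝ≥0} {P : Measure Ω} {W : ℕ → Ω → ℝ≥0} {c : ℕ → Ω → ℕ}
    (hT : IsTree μ fF 1 P W c) (S : Set (List ℕ)) (n : ℕ) :
    ∀ (t : ℕ) (h : List ℕ), h.length = t →
    ENNReal.ofReal (Pop^[n] (fun x => if x ∈ S then (1:ℝ) else 0) h) * P {ω | hist c t ω = h} ≤
      P {ω | hist c t ω = h ∧ hist c (t+n) ω ∈ S} := by
  induction n with
  | zero =>
    intro t h _
    show ENNReal.ofReal (if h ∈ S then (1:ℝ) else 0) * _ ≤ _
    split_ifs with hS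
    · rw [ENNReal.ofReal_one, one_mul]
      refine measure_mono fun ω hω => ?_
      have hω' : hist c t ω = h := hω
      exact ⟨hω', by rw [Nat.add_zero, hω']; exact hS⟩
    · simp
  | succ n ih =>
    intro t h hl
    rw [Function.iterate_succ_apply']
    have ePop : Pop (Pop^[n] (fun x => if x ∈ S then (1:ℝ) else 0)) h = ∑ v ∈ range (h.length + 1),
      p h v * Pop^[n] (fun x => if x ∈ S then (1:ℝ) else 0) (v :: h) := rfl
    rw [ePop]
    have hnn : ∀ x : List ℕ, 0 ≤ (if x ∈ S then (1:ℝ) else 0) := fun x => by split_ifs <;> norm_num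
    rw [ENNReal.ofReal_sum_of_nonneg (fun v _ => mul_nonneg (p_nonneg h v) (iter_nonneg hnn n _)),
      sum_mul]
    have h1 : ∀ v ∈ range (h.length + 1),
        ENNReal.ofReal (p h v * Pop^[n] (fun x => if x ∈ S then (1:ℝ) else 0) (v :: h)) * P {ω | hist c t ω = h} ≤
        P {ω | hist c (t+1) ω = v :: h ∧ hist c (t+1+n) ω ∈ S} := by
      intro v hv
      rw [mem_range] at hv
      have h2 := ih (t+1) (v :: h) (by rw [List.length_cons, hl])
      rw [law_step hT t h hl v (by omega)] at h2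
      refine le_trans (le_of_eq ?_) h2
      rw [ENNReal.ofReal_mul (p_nonneg h v)]
      ring
    refine (sum_le_sum h1).trans ?_
    rw [← measure_biUnion_finset]
    · refine measure_mono fun ω hω => ?_
      simp only [Set.mem_iUnion, Set.mem_ofPred_eq, exists_prop] at hω ⊢
      obtain ⟨v, _, h3, h4⟩ := hω
      have h5 : c t ω :: hist c t ω = v :: h := h3
      rw [List.cons.injEq] at h5
      refine ⟨h5.2, ?_⟩
      have : t + (n+1) = t + 1 + n := by omega
      rw [this]
      exact h4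
    · intro v _ v' _ hne
      simp only [Function.onFun]
      rw [Set.disjoint_left]
      rintro ω ⟨h3, _⟩ ⟨h4, _⟩
      rw [h3, List.cons.injEq] at h4
      exact hne h4.1
    · intro v _
      exact (meas_hist hT.meas_c (t+1) (v :: h)).inter (meas_hist_mem hT.meas_c (t+1+n) S)

theorem star_pos [MeasurableSpace Ω] {μ : Measure ℝ≥0} {P : Measure Ω} [IsProbabilityMeasure P]
    {W : ℕ → Ω → ℝ≥0} {c : ℕ → Ω → ℕ} (hT : IsTree μ fF 1 P W c) (t : ℕ) :
    0 < P {ω | hist c t ω = List.replicate t 0} := by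
  induction t with
  | zero =>
    have : {ω : Ω | hist c 0 ω = List.replicate 0 0} = Set.univ := by
      ext ω; simp [hist]
    rw [this, measure_univ]
    exact one_pos
  | succ t ih =>
    rw [List.replicate_succ, law_step hT t _ List.length_replicate 0 (Nat.zero_le _)]
    exact ENNReal.mul_pos (ENNReal.ofReal_pos.mpr (p_pos _ _)).ne' ih.ne'

/-- time of the drop of phase `k` -/
def TT (k : ℕ) : ℕ := K (k-1) + L k

open Classical in
theorem drop_ge [MeasurableSpace Ω] {μ : Measure ℝ≥0} {P : Measure Ω} [IsProbabilityMeasure P]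
    {W : ℕ → Ω → ℝ≥0} {c : ℕ → Ω → ℕ} (hT : IsTree μ fF 1 P W c) {k : ℕ} (hk : 6 ≤ k) :
    ENNReal.ofReal (1/2) * P {ω | hist c (a k0) ω = base} ≤ P {ω | Dr k (hist c (TT k) ω) = 1} := by
  have h1 := law_ge hT {x | Dr k x = 1} (nM k + L k) (a k0) base base_length
  have e1 : (fun x : List ℕ => if x ∈ {x | Dr k x = 1} then (1:ℝ) else 0) = Dr k := by
    funext x
    simp only [Set.mem_ofPred_eq]
    unfold Dr
    split_ifs <;> simp_all
  rw [e1] at h1
  have h2 := drop_prob hk
  refine le_trans ?_ (h1.trans ?_)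
  · exact mul_le_mul_left (ENNReal.ofReal_le_ofReal h2) _
  · refine measure_mono fun ω hω => ?_
    have h3 := hω.2
    have e2 : a k0 + (nM k + L k) = TT k := by
      rw [← Nat.add_assoc, nM_add hk]; rfl
    rw [e2] at h3
    exact h3

theorem leafCount_eq {W : ℕ → Ω → ℝ≥0} {c : ℕ → Ω → ℕ} (t : ℕ) (ω : Ω) :
    leafCount 1 W c Set.univ t ω = leaves (hist c t ω) := by
  classical
  unfold leafCount leaves
  rw [hist_length, one_mul]
  congr 1
  ext v
  simp only [mem_filter, Set.mem_univ, and_true, hist_count]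

theorem TT_ge (k : ℕ) (hk : 6 ≤ k) : k ≤ TT k := by
  unfold TT
  have h1 := small hk
  have h2 : k - 1 ≤ b (k-1) := b_strictMono.le_apply
  have h3 : 4 * 1 * b (k-1) ≤ 4 * (s k + 1) * b (k-1) := Nat.mul_le_mul_right _ (Nat.mul_le_mul_left _ (by omega))
  omega

/-- the leaf density does not converge to one almost surely -/
theorem not_conv [MeasurableSpace Ω] {μ : Measure ℝ≥0} {P : Measure Ω} [IsProbabilityMeasure P]
    {W : ℕ → Ω → ℝ≥0} {c : ℕ → Ω → ℕ} (hT : IsTree μ fF 1 P W c) :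
    ¬ ∀ᵐ ω ∂P, Tendsto (fun t : ℕ => (leafCount 1 W c Set.univ t ω : ℝ) / t) atTop (𝓝 1) := by
  classical
  intro hconv
  have hbase : 0 < P {ω | hist c (a k0) ω = base} := star_pos hT (a k0)
  set δ : ℝ≥0∞ := ENNReal.ofReal (1/2) * P {ω | hist c (a k0) ω = base} with hδ
  have hδpos : 0 < δ := ENNReal.mul_pos (by simp) hbase.ne'
  set A : ℕ → Set Ω := fun k => {ω | Dr k (hist c (TT k) ω) = 1} with hA
  have hAm : ∀ k, MeasurableSet (A k) := fun k => meas_hist_mem hT.meas_c (TT k) {x | Dr k x = 1}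
  have hAge : ∀ k, 6 ≤ k → δ ≤ P (A k) := fun k hk => drop_ge hT hk
  set U : ℕ → Set Ω := fun n => ⋃ k, ⋃ (_ : n ≤ k), A k with hU
  have hUm : ∀ n, MeasurableSet (U n) := fun n => MeasurableSet.iUnion fun k => MeasurableSet.iUnion fun _ => hAm k
  have hUanti : Antitone U := by
    intro m n hmn ω hω
    simp only [hU, Set.mem_iUnion] at hω ⊢
    obtain ⟨k, hk, hx⟩ := hω
    exact ⟨k, hmn.trans hk, hx⟩
  have hUge : ∀ n, δ ≤ P (U n) := by
    intro n
    refine (hAge (max n 6) (le_max_right _ _)).trans (measure_mono fun ω hω => ?_)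
    simp only [hU, Set.mem_iUnion]
    exact ⟨max n 6, le_max_left _ _, hω⟩
  have hzero : P (⋂ n, U n) = 0 := by
    rw [← nonpos_iff_eq_zero]
    rw [ae_iff] at hconv
    refine le_trans (measure_mono fun ω hω => ?_) hconv.le
    simp only [Set.mem_ofPred_eq]
    intro hlim
    have hev : ∀ᶠ t : ℕ in atTop, 1 - 1/136 < (leafCount 1 W c Set.univ t ω : ℝ) / t :=
      hlim.eventually_const_lt (by norm_num)
    obtain ⟨t0, ht0⟩ := eventually_atTop.mp hev
    rw [Set.mem_iInter] at hω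
    have hω' := hω (t0 + 1000)
    simp only [hU, Set.mem_iUnion] at hω'
    obtain ⟨k, hk, hx⟩ := hω'
    have hk6 : 6 ≤ k := by omega
    have hTk := TT_ge k hk6
    have h1 := ht0 (TT k) (by omega)
    rw [leafCount_eq] at h1
    have h2 := leaves_le hk6 (h := hist c (TT k) ω) (hist_length _ _ _) hx
    rw [hist_length] at h2
    have hTpos : (1000:ℝ) ≤ TT k := by
      have : 1000 ≤ TT k := by omega
      exact_mod_cast this
    rw [lt_div_iff₀ (by linarith)] at h1
    linarith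
  have hlim := tendsto_measure_iInter_atTop (μ := P) (fun n => (hUm n).nullMeasurableSet) hUanti ⟨0, measure_ne_top _ _⟩
  rw [hzero] at hlim
  have := ge_of_tendsto hlim (Eventually.of_forall hUge)
  exact absurd this (not_le.mpr hδpos)

end Pool.Agent.R953.FR
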